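import Pool.Statements.S00638
import Pool.Agent.MP_05ef64_al.CEFinal

set_option autoImplicit false
open Pool Pool.MP_05ef64_al

namespace Pool.Agent.S00638

/-- The negation of the preceding statement: For every field, e, and family of numerical semigroups of embedding dimension e, and all 1≤i,j≤e−1: the i-th Betti numbers are uniformly bounded over the family iff the j-th Betti numbers are uniformly bounded. -/
theorem result :
    ¬ (∀ (k : Type) [Field k] (e : ℕ) (F : Set (Fin e → ℕ)),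
    (∀ g ∈ F, StrictMono g ∧
        ((AddSubmonoid.closure (Set.range g) : Set ℕ)ᶜ).Finite ∧
        ∀ j : Fin e, g j ∉ AddSubmonoid.closure (g '' {l | l ≠ j})) →
    ∀ i j : ℕ, 1 ≤ i → i ≤ e - 1 → 1 ≤ j → j ≤ e - 1 →
      ((∃ N : ℕ, ∀ g ∈ F,
          ∃ (r : ℕ → ℕ)
            (d : ∀ n : ℕ, Matrix (Fin (r n)) (Fin (r (n + 1))) (MvPolynomial (Fin e) k)),
            r 0 = 1 ∧
            (∀ v : Fin (r 0) → MvPolynomial (Fin e) k,
              v ∈ LinearMap.range (d 0).mulVecLin ↔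
                ∀ a, v a ∈ RingHom.ker
                  (MvPolynomial.aeval
                    (fun l : Fin e => (Polynomial.X : Polynomial k) ^ g l))) ∧
            (∀ n : ℕ, LinearMap.ker (d n).mulVecLin = LinearMap.range (d (n + 1)).mulVecLin) ∧
            r i ≤ N) ↔
       (∃ N : ℕ, ∀ g ∈ F,
          ∃ (r : ℕ → ℕ)
            (d : ∀ n : ℕ, Matrix (Fin (r n)) (Fin (r (n + 1))) (MvPolynomial (Fin e) k)),
            r 0 = 1 ∧
            (∀ v : Fin (r 0) → MvPolynomial (Fin e) k,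
              v ∈ LinearMap.range (d 0).mulVecLin ↔
                ∀ a, v a ∈ RingHom.ker
                  (MvPolynomial.aeval
                    (fun l : Fin e => (Polynomial.X : Polynomial k) ^ g l))) ∧
            (∀ n : ℕ, LinearMap.ker (d n).mulVecLin = LinearMap.range (d (n + 1)).mulVecLin) ∧
            r j ≤ N))) := by
  intro H
  have h1 := H ℚ 8 {g | ∃ M, 4 ≤ M ∧ g = Pool.Agent.MP_05ef64_al.CE.gg M} (by
    rintro g ⟨M, hM, rfl⟩
    exact ⟨Pool.Agent.MP_05ef64_al.CE.gg_strictMono hM,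
      Pool.Agent.MP_05ef64_al.CE.gg_cofinite M, Pool.Agent.MP_05ef64_al.CE.gg_minimal hM⟩)
    1 7 (by norm_num) (by norm_num) (by norm_num) (by norm_num)
  obtain ⟨N, hN⟩ := h1.1 ⟨73, by
    rintro g ⟨M, hM, rfl⟩
    obtain ⟨r, d, hR, h⟩ := Pool.Agent.MP_05ef64_al.CE.exists_res (k := ℚ) hM
    exact ⟨r, d, hR.r0, hR.aug, hR.exact, h⟩⟩
  obtain ⟨r, d, e0, e1, e2, h⟩ := hN _ ⟨N + 4, by omega, rfl⟩
  have h2 := Pool.Agent.MP_05ef64_al.CE.res_ge (k := ℚ) (M := N + 4) (by omega) ⟨e0, e1, e2⟩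
  omega

end Pool.Agent.S00638
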