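import Pool.Statements.S01165
import Pool.Agent.MP_35f30a_al.C74.Final

set_option autoImplicit false
open Pool Pool.MP_35f30a_al

namespace Pool.Agent.S01165

/-- For every field k and every set X, any element of the free associative algebra k⟨X⟩ that is not a scalar generates a two-sided ideal that is not the whole algebra. -/
theorem result :
    ∀ (k : Type) [Field k] (X : Type) (f : FreeAlgebra k X),
      f ∉ Set.range (algebraMap k (FreeAlgebra k X)) →
        TwoSidedIdeal.span ({f} : Set (FreeAlgebra k X)) ≠ ⊤ := by
  intro k _ X f hf
  exact C74.main_span k X f hf

end Pool.Agent.S01165
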