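import Pool.Statements.S01391
import Pool.Agent.helper28.Bridge4bac43

set_option autoImplicit false
open Pool Pool.MP_4bac43_al

namespace Pool.Agent.S01391

/-- If two groups each have the fixed-point property for cones, then so does their direct product. The property: every locally bounded, cobounded representation on a weakly complete proper convex cone has a nonzero fixed point. -/
theorem result :
    ∀ (G₁ G₂ : Type) [Group G₁] [Group G₂],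
      (∀ (E : Type) [AddCommGroup E] [Module ℝ E] [TopologicalSpace E]
          [IsTopologicalAddGroup E] [ContinuousSMul ℝ E] [LocallyConvexSpace ℝ E] [T2Space E]
          (C : PointedCone ℝ E) (ρ : G₁ →* (E →L[ℝ] E)),
          (∀ x : E, x ∈ C → -x ∈ C → x = 0) →
          IsComplete ((fun x : E => fun f : E →L[ℝ] ℝ => f x) '' (C : Set E)) →
          (∀ g : G₁, ∀ x ∈ C, (ρ g) x ∈ C) →
          (∃ x ∈ C, x ≠ 0 ∧ Bornology.IsVonNBounded ℝ (Set.range fun g : G₁ => (ρ g) x)) →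
          (∃ φ : E →L[ℝ] ℝ, ∀ l : E →L[ℝ] ℝ, ∃ (n : ℕ) (g : Fin n → G₁),
              ∀ x ∈ C, |l x| ≤ ∑ i, φ ((ρ (g i)⁻¹) x)) →
          ∃ x ∈ C, x ≠ 0 ∧ ∀ g : G₁, (ρ g) x = x) →
      (∀ (E : Type) [AddCommGroup E] [Module ℝ E] [TopologicalSpace E]
          [IsTopologicalAddGroup E] [ContinuousSMul ℝ E] [LocallyConvexSpace ℝ E] [T2Space E]
          (C : PointedCone ℝ E) (ρ : G₂ →* (E →L[ℝ] E)),
          (∀ x : E, x ∈ C → -x ∈ C → x = 0) →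
          IsComplete ((fun x : E => fun f : E →L[ℝ] ℝ => f x) '' (C : Set E)) →
          (∀ g : G₂, ∀ x ∈ C, (ρ g) x ∈ C) →
          (∃ x ∈ C, x ≠ 0 ∧ Bornology.IsVonNBounded ℝ (Set.range fun g : G₂ => (ρ g) x)) →
          (∃ φ : E →L[ℝ] ℝ, ∀ l : E →L[ℝ] ℝ, ∃ (n : ℕ) (g : Fin n → G₂),
              ∀ x ∈ C, |l x| ≤ ∑ i, φ ((ρ (g i)⁻¹) x)) →
          ∃ x ∈ C, x ≠ 0 ∧ ∀ g : G₂, (ρ g) x = x) →
      (∀ (E : Type) [AddCommGroup E] [Module ℝ E] [TopologicalSpace E]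
          [IsTopologicalAddGroup E] [ContinuousSMul ℝ E] [LocallyConvexSpace ℝ E] [T2Space E]
          (C : PointedCone ℝ E) (ρ : G₁ × G₂ →* (E →L[ℝ] E)),
          (∀ x : E, x ∈ C → -x ∈ C → x = 0) →
          IsComplete ((fun x : E => fun f : E →L[ℝ] ℝ => f x) '' (C : Set E)) →
          (∀ g : G₁ × G₂, ∀ x ∈ C, (ρ g) x ∈ C) →
          (∃ x ∈ C, x ≠ 0 ∧ Bornology.IsVonNBounded ℝ (Set.range fun g : G₁ × G₂ => (ρ g) x)) →
          (∃ φ : E →L[ℝ] ℝ, ∀ l : E →L[ℝ] ℝ, ∃ (n : ℕ) (g : Fin n → G₁ × G₂),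
              ∀ x ∈ C, |l x| ≤ ∑ i, φ ((ρ (g i)⁻¹) x)) →
          ∃ x ∈ C, x ≠ 0 ∧ ∀ g : G₁ × G₂, (ρ g) x = x) := by
  intro G₁ G₂ _ _ h1 h2
  exact Pool.Agent.Bridge4bac43.fpc_prod G₁ G₂ h1 h2

end Pool.Agent.S01391
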