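import Pool.Statements.S01797
import Pool.Agent.MP_6af7b0_al.Final

set_option autoImplicit false
open Pool Pool.MP_6af7b0_al

namespace Pool.Agent.S01797

open Pool.Agent.MP_6af7b0_al

/-- For any finite set of semigroup identities: if the variety they define is non-periodic and contains a periodic semigroup that is not locally finite, then it contains a finitely generated semigroup whose growth function is at least c^n for some c>1. -/
theorem result :
    ∀ E : List (FreeSemigroup ℕ × FreeSemigroup ℕ),
      (∃ (S : Type) (_ : Semigroup S),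
          (∀ p ∈ E, ∀ f : FreeSemigroup ℕ →ₙ* S, f p.1 = f p.2) ∧
          ∃ a : S, (Subsemigroup.closure ({a} : Set S) : Set S).Infinite) →
      (∃ (S : Type) (_ : Semigroup S),
          (∀ p ∈ E, ∀ f : FreeSemigroup ℕ →ₙ* S, f p.1 = f p.2) ∧
          (∀ a : S, (Subsemigroup.closure ({a} : Set S) : Set S).Finite) ∧
          ∃ A : Set S, A.Finite ∧ (Subsemigroup.closure A : Set S).Infinite) →
      ∃ (T : Type) (_ : Semigroup T),
        (∀ p ∈ E, ∀ f : FreeSemigroup ℕ →ₙ* T, f p.1 = f p.2) ∧
        ∃ (k : ℕ) (g : Fin k → T),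
          Subsemigroup.closure (Set.range g) = ⊤ ∧
          ∃ c : ℝ, 1 < c ∧ ∃ N : ℕ, ∀ n ≥ N,
            c ^ n ≤ (Nat.card {x : T | ∃ w : FreeSemigroup (Fin k),
              w.tail.length < n ∧ FreeSemigroup.lift g w = x} : ℝ) := by
  intro E h1 h2
  obtain ⟨S1, i1, hS1, a, ha⟩ := h1
  obtain ⟨S2, i2, hS2, hper, A, hA, hAinf⟩ := h2
  -- the parameter
  set m : ℕ := (E.map fun p => (toL p.1).length + (toL p.2).length).sum + 2 with hm
  have hlen : ∀ p ∈ E, (toL p.1).length + 1 < m ∧ (toL p.2).length + 1 < m := by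
    intro p hp
    have : (toL p.1).length + (toL p.2).length ≤
        (E.map fun p => (toL p.1).length + (toL p.2).length).sum :=
      List.single_le_sum (by simp) _ (List.mem_map_of_mem hp)
    omega
  have hbal : ∀ p ∈ E, (toL p.1).Perm (toL p.2) := fun p hp =>
    balanced p.1 p.2 (hS1 p hp) a ha
  refine assembly E (Letter m) (CL m) (CL_factorial m) ?_ (Real.exp (4 * m)) ?_
    (growth m (by omega))
  · intro p hp θ hθ
    obtain ⟨l1, l2⟩ := hlen p hp
    constructor
    · intro h
      exact lang_isoterm l1 (hbal p hp).symm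
        (zimin_cond S2 p.1 p.2 (hS2 p hp) hper A hA hAinf (hbal p hp)) hθ h
    · intro h
      exact lang_isoterm l2 (hbal p hp)
        (zimin_cond S2 p.2 p.1 (fun f => (hS2 p hp f).symm) hper A hA hAinf (hbal p hp).symm) hθ h
  · have : (0 : ℝ) < 4 * (m : ℝ) := by
      have : (0 : ℝ) < (m : ℝ) := by
        have : 0 < m := by omega
        exact_mod_cast this
      linarith
    exact Real.one_lt_exp_iff.mpr this

end Pool.Agent.S01797
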