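import Pool.Statements.S02284
import Pool.Agent.MP_918b6a_al.Core
import Pool.Agent.MP_918b6a_al.Quot

set_option autoImplicit false
open Pool Pool.MP_918b6a_al

namespace Pool.Agent.S02284

/-- The negation of the preceding statement: In any lattice-ordered group whose only normal convex sublattice-subgroups are trivial or everything, every normal convex subgroup is also trivial or everything. -/
theorem result :
    ¬ (∀ (G : Type) [Group G] [Lattice G] [MulLeftMono G] [MulRightMono G],
      (∀ H : Subgroup G, H.Normal →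
          (∀ a b g : G, a ∈ H → b ∈ H → a ≤ g → g ≤ b → g ∈ H) →
          (∀ a b : G, a ∈ H → b ∈ H → a ⊔ b ∈ H ∧ a ⊓ b ∈ H) →
          H = ⊥ ∨ H = ⊤) →
      ∀ H : Subgroup G, H.Normal →
        (∀ a b g : G, a ∈ H → b ∈ H → a ≤ g → g ≤ b → g ∈ H) →
        H = ⊥ ∨ H = ⊤) := by
  intro hall
  obtain ⟨G, i1, i2, i3, i4, hsimple, H, hn, hc, hb, ht⟩ :=
    Pool.Agent.MP_918b6a_al.main_quot (G := Pool.Agent.MP_918b6a_al.GG)
      Pool.Agent.MP_918b6a_al.NN Pool.Agent.MP_918b6a_al.NN_normal
      Pool.Agent.MP_918b6a_al.nn Pool.Agent.MP_918b6a_al.uu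
      Pool.Agent.MP_918b6a_al.nn_mem Pool.Agent.MP_918b6a_al.nn_ne_one
      Pool.Agent.MP_918b6a_al.uu_le Pool.Agent.MP_918b6a_al.one_le_uu
      Pool.Agent.MP_918b6a_al.le_conj
      (fun n hn => ⟨_, Pool.Agent.MP_918b6a_al.balanced n hn⟩)
  rcases hall G hsimple H hn hc with h | h
  · exact hb h
  · exact ht h

end Pool.Agent.S02284
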