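import Pool.Statements.S02353
import Pool.Agent.LPM.Z

set_option autoImplicit false
open Pool Pool.MP_951c8d_al

namespace Pool.Agent.S02353

/-- In every finite loop whose inner mappings (left, right and middle inner maps) are all automorphisms, each prime p dividing the loop's size has an element x ≠ 1 with x^p = 1. -/
theorem result :
    ∀ (Q : Type) [Fintype Q] (mul : Q → Q → Q) (e : Q),
      (∀ x, mul e x = x) →
      (∀ x, mul x e = x) →
      (∀ a b, ∃! x, mul a x = b) →
      (∀ a b, ∃! y, mul y a = b) →
      (∀ (x y : Q) (f : Q → Q), (∀ z, mul (mul y x) (f z) = mul y (mul x z)) →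
          ∀ u v, f (mul u v) = mul (f u) (f v)) →
      (∀ (x y : Q) (f : Q → Q), (∀ z, mul (f z) (mul x y) = mul (mul z x) y) →
          ∀ u v, f (mul u v) = mul (f u) (f v)) →
      (∀ (x : Q) (f : Q → Q), (∀ z, mul x (f z) = mul z x) →
          ∀ u v, f (mul u v) = mul (f u) (f v)) →
      ∀ p : ℕ, p.Prime → p ∣ Fintype.card Q →
        ∃ x : Q, x ≠ e ∧ (fun z => mul z x)^[p] e = e := by
  exact LPM.cauchy_all_of_simple (fun h ha hs => LPM.simple_assoc h ha hs)

end Pool.Agent.S02353
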