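import Pool.Statements.S02791
import Pool.Agent.MP_b5696c_al.Pair

set_option autoImplicit false
open Pool Pool.MP_b5696c_al

namespace Pool.Agent.S02791

/-- There is a finite simple group G and subsets A, B of G, neither a coset of a subgroup, such that for all g, h in G the set g⁻¹Ah meets B in exactly one element. -/
theorem result :
    ∃ (G : Type) (_ : Group G), Finite G ∧ IsSimpleGroup G ∧
      ∃ A B : Set G,
        (¬ ∃ H : Subgroup G, ∃ x : G, A = (fun y => x * y) '' (H : Set G)) ∧
        (¬ ∃ H : Subgroup G, ∃ x : G, B = (fun y => x * y) '' (H : Set G)) ∧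
        ∀ g h : G, Set.ncard ((fun a => g⁻¹ * a * h) '' A ∩ B) = 1 :=
  ⟨Pool.Agent.MPb5696c.G, inferInstance, inferInstance, Pool.Agent.MPb5696c.G_simple,
    Pool.Agent.MPb5696c.setA, Pool.Agent.MPb5696c.setB, Pool.Agent.MPb5696c.not_coset_A,
    Pool.Agent.MPb5696c.not_coset_B, Pool.Agent.MPb5696c.exact_pair⟩

end Pool.Agent.S02791
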