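import Pool.Statements.S03614
-- import your own Pool.Agent.* helpers here
import Pool.Agent.MP_fb66b8_al.Main

set_option autoImplicit false
open CategoryTheory
open Pool Pool.MP_fb66b8_al

namespace Pool.Agent.S03614

/-- The negation of the preceding statement: For every infinite field F and all n, i, the map on rational group homology H_i(GL_n(F);Q) to H_i(GL_{n+1}(F);Q) induced by the block inclusion A to diag(A,1) is injective. -/
theorem result :
    ¬ (∀ (F : Type) [Field F] [Infinite F] (n i : ℕ)
      (ι : Matrix.GeneralLinearGroup (Fin n) F →* Matrix.GeneralLinearGroup (Fin (n + 1)) F),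
      (∀ (A : Matrix.GeneralLinearGroup (Fin n) F) (a b : Fin n),
          (ι A).val (Fin.castSucc a) (Fin.castSucc b) = A.val a b) →
      (∀ (A : Matrix.GeneralLinearGroup (Fin n) F) (a : Fin n),
          (ι A).val (Fin.castSucc a) (Fin.last n) = 0) →
      (∀ (A : Matrix.GeneralLinearGroup (Fin n) F) (a : Fin n),
          (ι A).val (Fin.last n) (Fin.castSucc a) = 0) →
      (∀ (A : Matrix.GeneralLinearGroup (Fin n) F),
          (ι A).val (Fin.last n) (Fin.last n) = 1) →
      Function.Injective
        (groupHomology.map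
          (A := Rep.trivial ℚ (Matrix.GeneralLinearGroup (Fin n) F) ℚ)
          (B := Rep.trivial ℚ (Matrix.GeneralLinearGroup (Fin (n + 1)) F) ℚ)
          ι (𝟙 _) i).hom) := by
  intro h
  have : Infinite Pool.Agent.MP_fb66b8_al.FF := Pool.Agent.MP_fb66b8_al.infiniteFF
  exact Pool.Agent.MP_fb66b8_al.final
    (h Pool.Agent.MP_fb66b8_al.FF 2 4 Pool.Agent.MP_fb66b8_al.iota
      Pool.Agent.MP_fb66b8_al.iota_cond1 Pool.Agent.MP_fb66b8_al.iota_cond2
      Pool.Agent.MP_fb66b8_al.iota_cond3 Pool.Agent.MP_fb66b8_al.iota_cond4)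

end Pool.Agent.S03614
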