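import Pool.Statements.S03770
import Pool.Agent.MP_0a9cf0_an.Grid

set_option autoImplicit false
open Pool Pool.MP_0a9cf0_an

namespace Pool.Agent.S03770

/-- The negation of the preceding statement: For each dimension d there is a constant C such that, for every Schwartz function u on R^d and every convex set K in R^d×R^d, the integral over K of the Wigner distribution of u is at most C times the squared L2 norm of u. -/
theorem result :
    ¬ (∀ d : ℕ, ∃ C : ℝ,
      ∀ (u : SchwartzMap (EuclideanSpace ℝ (Fin d)) ℂ)
        (K : Set (EuclideanSpace ℝ (Fin d) × EuclideanSpace ℝ (Fin d))),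
        Convex ℝ K →
          (∫ p in K, ∫ y : EuclideanSpace ℝ (Fin d),
              Complex.exp (-(2 * (Real.pi : ℂ) * Complex.I * ((inner ℝ y p.2 : ℝ) : ℂ)))
                * u (p.1 + (1/2 : ℝ) • y)
                * starRingEnd ℂ (u (p.1 - (1/2 : ℝ) • y))).re
            ≤ C * ∫ x : EuclideanSpace ℝ (Fin d), ‖u x‖ ^ 2) := by
  intro h
  obtain ⟨C, hC⟩ := h 17
  exact Pool.Agent.MP_0a9cf0_an.main_contra C hC

end Pool.Agent.S03770
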