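import Pool.Statements.S03887
import Pool.Agent.MP_149452_an.Main

set_option autoImplicit false
open Pool Pool.MP_149452_an

namespace Pool.Agent.S03887

/-- For every continuous real function f on c_0 (real null sequences, sup norm) and every ε > 0, there is a real analytic function g on c_0 with ∣f(x) − g(x)∣ < ε for all x. -/
theorem result :
    ∀ f : ZeroAtInftyContinuousMap ℕ ℝ → ℝ, Continuous f →
      ∀ ε : ℝ, 0 < ε →
        ∃ g : ZeroAtInftyContinuousMap ℕ ℝ → ℝ,
          (∀ x, AnalyticAt ℝ g x) ∧ ∀ x, |f x - g x| < ε := by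
  intro f hf ε hε
  exact Pool.Agent.MP_149452_an.main hf hε

end Pool.Agent.S03887
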