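import Pool.Statements.S05252
import Pool.Agent.MP_83fd13_an.SCH.Final

set_option autoImplicit false
open Pool Pool.MP_83fd13_an

namespace Pool.Agent.S05252

/-- The negation of the preceding statement: A bounded simply connected planar domain with Lipschitz Jordan boundary carrying a nonzero weak solution of −Δu = λu (λ>0) with zero Neumann data and constant Dirichlet trace c must be an open disc. -/
theorem result :
    ¬ (∀ Ω : Set (EuclideanSpace ℝ (Fin 2)),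
    IsOpen Ω → Bornology.IsBounded Ω → IsConnected Ω → SimplyConnectedSpace Ω →
    Nonempty (frontier Ω ≃ₜ Metric.sphere (0 : EuclideanSpace ℝ (Fin 2)) 1) →
    (∀ p ∈ frontier Ω, ∃ e f : EuclideanSpace ℝ (Fin 2), ‖e‖ = 1 ∧ ‖f‖ = 1 ∧
        @inner ℝ (EuclideanSpace ℝ (Fin 2)) _ e f = 0 ∧
        ∃ r : ℝ, 0 < r ∧ ∃ K : NNReal, ∃ g : ℝ → ℝ, LipschitzWith K g ∧
          ∀ x ∈ Metric.ball p r,
            (x ∈ Ω ↔ g (@inner ℝ (EuclideanSpace ℝ (Fin 2)) _ x e)
              < @inner ℝ (EuclideanSpace ℝ (Fin 2)) _ x f)) →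
    ∀ (lam c : ℝ) (u : EuclideanSpace ℝ (Fin 2) → ℝ)
      (G : EuclideanSpace ℝ (Fin 2) → EuclideanSpace ℝ (Fin 2)),
      0 < lam →
      MeasureTheory.MemLp u 2 (MeasureTheory.volume.restrict Ω) →
      MeasureTheory.MemLp G 2 (MeasureTheory.volume.restrict Ω) →
      (∀ φ : EuclideanSpace ℝ (Fin 2) → ℝ, ContDiff ℝ 1 φ → HasCompactSupport φ →
        ∀ v : EuclideanSpace ℝ (Fin 2),
          ∫ x in Ω, (u x - c) * (fderiv ℝ φ x v)
            = - ∫ x in Ω, @inner ℝ (EuclideanSpace ℝ (Fin 2)) _ (G x) v * φ x) →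
      (∀ φ : EuclideanSpace ℝ (Fin 2) → ℝ, ContDiff ℝ 1 φ → HasCompactSupport φ →
          ∫ x in Ω, fderiv ℝ φ x (G x) = lam * ∫ x in Ω, u x * φ x) →
      ¬ (u =ᵐ[MeasureTheory.volume.restrict Ω] 0) →
      ∃ (a : EuclideanSpace ℝ (Fin 2)) (r : ℝ), Ω = Metric.ball a r) :=
  SCHT.neg_schiffer

end Pool.Agent.S05252
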