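import Pool.Statements.S05384
import Pool.Agent.MP908b95.PartA

set_option autoImplicit false
open Pool Pool.MP_908b95_an

namespace Pool.Agent.S05384

/-
Counterexample: `T = [[S, J], [0, S]]` on `ℓ² ⊕ ℓ²`, with `S` the unilateral shift and `J` the Volterra
(integration) operator of the Hardy space.
-/
open Pool.Agent.MP908b95 in
open scoped ComplexConjugate in
theorem mapping {E a : ℂ} (ha : ‖a‖ < 1) {Γ Γ' : K →L[ℂ] K} (h1 : Γ * Γ' = 1)
    (hΓ : Rel E a Γ) :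
    E • ((T - a • (1 : K →L[ℂ] K)) * Ring.inverse ((1 : K →L[ℂ] K) - (starRingEnd ℂ a) • T))
      = Γ * T * Γ' := by
  have hu := isUnit_one_sub_T ha
  have e1 : (1 - conj a • T) * (Γ * T * Γ') = E • (T - a • (1 : K →L[ℂ] K)) := by
    calc (1 - conj a • T) * (Γ * T * Γ') = ((1 - conj a • T) * (Γ * T)) * Γ' := by
          simp only [mul_assoc]
      _ = (E • ((T - a • (1 : K →L[ℂ] K)) * Γ)) * Γ' := by rw [← hΓ]
      _ = E • ((T - a • (1 : K →L[ℂ] K)) * (Γ * Γ')) := by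
          rw [smul_mul_assoc, mul_assoc]
      _ = _ := by rw [h1, mul_one]
  have hcomm : (1 - conj a • T) * (T - a • (1 : K →L[ℂ] K))
      = (T - a • (1 : K →L[ℂ] K)) * (1 - conj a • T) := by
    simp only [mul_sub, sub_mul, mul_one, one_mul, smul_mul_assoc, mul_smul_comm]
    module
  apply hu.mul_left_cancel
  rw [e1, mul_smul_comm, ← mul_assoc, hcomm, mul_assoc, Ring.mul_inverse_cancel _ hu, mul_one]

open Pool.Agent.MP908b95 in
theorem spec : spectrum ℂ T ⊆ Metric.closedBall (0 : ℂ) 1 := by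
  intro z hz
  rw [mem_closedBall_zero_iff]
  by_contra hlt
  rw [not_le] at hlt
  have hz0 : z ≠ 0 := by
    intro h
    rw [h, norm_zero] at hlt
    linarith
  have hzi : ‖z⁻¹‖ < 1 := by
    rw [norm_inv]
    exact inv_lt_one_of_one_lt₀ hlt
  apply hz
  rw [spectrum.mem_resolventSet_iff]
  have h1 : IsUnit ((1 : K →L[ℂ] K) - z⁻¹ • T) := by
    have h2 : ‖star z⁻¹‖ < 1 := by rwa [norm_star]
    have h3 := isUnit_one_sub_T h2
    have h4 : (starRingEnd ℂ) (star z⁻¹) = z⁻¹ := star_star z⁻¹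
    rwa [h4] at h3
  have h2 : (algebraMap ℂ (K →L[ℂ] K)) z - T = z • ((1 : K →L[ℂ] K) - z⁻¹ • T) := by
    rw [smul_sub, smul_smul, mul_inv_cancel₀ hz0, one_smul, Algebra.algebraMap_eq_smul_one]
  rw [h2]
  exact (isUnit_smul_iff (Units.mk0 z hz0) _).2 h1

/-- The negation of the preceding statement: If T on a Hilbert space has spectrum in the closed disc and each Möbius image φ(T) equals ΓTΓ⁻¹ with ‖Γ‖, ‖Γ⁻¹‖ bounded by one constant C, then some invertible S makes STS⁻¹ homogeneous (every φ(STS⁻¹) unitarily equivalent to STS⁻¹). -/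
theorem result :
    ¬ (∀ (H : Type) [NormedAddCommGroup H] [InnerProductSpace ℂ H] [CompleteSpace H]
      (T : H →L[ℂ] H),
      spectrum ℂ T ⊆ Metric.closedBall (0 : ℂ) 1 →
      (∃ C : ℝ, ∀ (θ : ℝ) (a : ℂ), ‖a‖ < 1 →
        ∃ Γ : (H →L[ℂ] H)ˣ,
          ‖(Γ : H →L[ℂ] H)‖ ≤ C ∧
          ‖((Γ⁻¹ : (H →L[ℂ] H)ˣ) : H →L[ℂ] H)‖ ≤ C ∧
          Complex.exp ((θ : ℂ) * Complex.I) •
              ((T - a • (1 : H →L[ℂ] H)) *
                Ring.inverse ((1 : H →L[ℂ] H) - (starRingEnd ℂ a) • T))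
            = (Γ : H →L[ℂ] H) * T * ((Γ⁻¹ : (H →L[ℂ] H)ˣ) : H →L[ℂ] H)) →
      ∃ S : (H →L[ℂ] H)ˣ, ∀ (θ : ℝ) (a : ℂ), ‖a‖ < 1 →
        ∃ U ∈ unitary (H →L[ℂ] H),
          Complex.exp ((θ : ℂ) * Complex.I) •
              (((S : H →L[ℂ] H) * T * ((S⁻¹ : (H →L[ℂ] H)ˣ) : H →L[ℂ] H)
                  - a • (1 : H →L[ℂ] H)) *
                Ring.inverse ((1 : H →L[ℂ] H) - (starRingEnd ℂ a) •
                  ((S : H →L[ℂ] H) * T * ((S⁻¹ : (H →L[ℂ] H)ˣ) : H →L[ℂ] H))))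
            = U * ((S : H →L[ℂ] H) * T * ((S⁻¹ : (H →L[ℂ] H)ˣ) : H →L[ℂ] H)) * star U) := by
  intro hall
  have hE : ∀ θ : ℝ, (starRingEnd ℂ) (Complex.exp ((θ : ℂ) * Complex.I)) *
      Complex.exp ((θ : ℂ) * Complex.I) = 1 := by
    intro θ
    rw [← Complex.exp_conj, ← Complex.exp_add]
    simp
  have hex := hall Pool.Agent.MP908b95.K Pool.Agent.MP908b95.T spec ?_
  · obtain ⟨X, hX⟩ := hex
    refine Pool.Agent.MP908b95.partB ?_ X hX
    intro θ a ha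
    obtain ⟨R, R', Q, h1, h2, -, -, -, h6⟩ := Pool.Agent.MP908b95.partA ha (hE θ)
    exact ⟨R, R', Q, h1, h2, h6⟩
  · refine ⟨Real.pi + 4, ?_⟩
    intro θ a ha
    obtain ⟨R, R', Q, h1, h2, h3, h4, h5, h6⟩ := Pool.Agent.MP908b95.partA ha (hE θ)
    obtain ⟨g1, g2⟩ := Pool.Agent.MP908b95.blk_unit (B := Q) h1 h2 h1 h2
    refine ⟨⟨_, _, g1, g2⟩, ?_, ?_, mapping ha g1 h6⟩
    · refine (Pool.Agent.MP908b95.norm_blk_le _ _ _).trans ?_
      linarith
    · refine (Pool.Agent.MP908b95.norm_blk_le _ _ _).trans ?_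
      have h7 : ‖-(R' * Q * R')‖ ≤ 1 * (Real.pi + 2) * 1 := by
        rw [norm_neg]
        calc ‖R' * Q * R'‖ ≤ ‖R' * Q‖ * ‖R'‖ := norm_mul_le _ _
          _ ≤ (‖R'‖ * ‖Q‖) * ‖R'‖ := by gcongr; exact norm_mul_le _ _
          _ ≤ 1 * (Real.pi + 2) * 1 := by gcongr
      linarith

end Pool.Agent.S05384
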