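import Pool.Statements.S05486
import Pool.Agent.MP_97b1c0_an.CP.Main

set_option autoImplicit false
open Pool Pool.MP_97b1c0_an

namespace Pool.Agent.S05486

/-- The negation of the preceding statement: For any two commuting continuous maps of the unit square whose first output coordinate depends only on the first input coordinate (triangular maps), some point is periodic for both maps. -/
theorem result :
    ¬ (∀ F G : unitInterval × unitInterval → unitInterval × unitInterval,
      Continuous F → Continuous G →
      (∀ p q : unitInterval × unitInterval, p.1 = q.1 → (F p).1 = (F q).1) →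
      (∀ p q : unitInterval × unitInterval, p.1 = q.1 → (G p).1 = (G q).1) →
      F ∘ G = G ∘ F →
      (Function.periodicPts F ∩ Function.periodicPts G).Nonempty) := by
  intro H
  obtain ⟨f, g, hf, hg, hfg, hempty⟩ := Pool.Agent.MP_97b1c0_an.CP.main
  obtain ⟨p, ⟨a, ha, hpa⟩, ⟨b, hb, hpb⟩⟩ := H (fun p => (f p.1, p.2)) (fun p => (g p.1, p.2))
    ((hf.comp continuous_fst).prodMk continuous_snd)
    ((hg.comp continuous_fst).prodMk continuous_snd)
    (fun p q h => by simp only [h]) (fun p q h => by simp only [h])
    (by
      funext p
      have h := congrFun hfg p.1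
      simp only [Function.comp] at h ⊢
      rw [h])
  have hF : Function.Semiconj Prod.fst (fun p : unitInterval × unitInterval => (f p.1, p.2)) f :=
    fun _ => rfl
  have hG : Function.Semiconj Prod.fst (fun p : unitInterval × unitInterval => (g p.1, p.2)) g :=
    fun _ => rfl
  have h1 : p.1 ∈ Function.periodicPts f :=
    ⟨a, ha, ((hF.iterate_right a) p).symm.trans (congrArg Prod.fst hpa)⟩
  have h2 : p.1 ∈ Function.periodicPts g :=
    ⟨b, hb, ((hG.iterate_right b) p).symm.trans (congrArg Prod.fst hpb)⟩
  have h3 : p.1 ∈ Function.periodicPts f ∩ Function.periodicPts g := ⟨h1, h2⟩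
  rw [hempty] at h3
  exact h3

end Pool.Agent.S05486
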