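import Pool.Statements.S05614
import Pool.Agent.MP_a091fe_an.Main

set_option autoImplicit false
open Pool Pool.MP_a091fe_an

namespace Pool.Agent.S05614

/-- The negation of the preceding statement: For every transcendental entire f whose nonzero Taylor coefficients sit at exponents with summable reciprocals, log(min of ∣f∣ on ∣z∣=r) ≥ (1−ε)·log(max of ∣f∣ on ∣z∣=r) for arbitrarily large r, for every ε>0, i.e. the limsup of the ratio is 1. -/
theorem result :
    ¬ (∀ (f : ℂ → ℂ) (Λ : Set ℕ),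
      Differentiable ℂ f →
      (∀ k : ℕ, iteratedDeriv k f 0 ≠ 0 → k ∈ Λ) →
      Summable (fun k : Λ => (1 : ℝ) / ((k : ℕ) : ℝ)) →
      Set.Infinite {k : ℕ | iteratedDeriv k f 0 ≠ 0} →
      ∀ ε : ℝ, 0 < ε → ∀ R : ℝ, ∃ r : ℝ, R < r ∧
        (1 - ε) * Real.log (sSup ((fun z => ‖f z‖) '' Metric.sphere (0 : ℂ) r))
          ≤ Real.log (sInf ((fun z => ‖f z‖) '' Metric.sphere (0 : ℂ) r))) := by
  exact Pool.Agent.MP_a091fe_an.not_limsup_one

end Pool.Agent.S05614
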