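import Pool.Statements.S06450
import Pool.Agent.helper28.E11434

set_option autoImplicit false
open Pool Pool.MP_e11434_an

namespace Pool.Agent.S06450

/-- The negation of the preceding statement: Every separable real Banach space that is not SCD (some nonempty bounded convex set has no sequence of slices whose every selection has closed convex hull containing it) is isomorphic to a space where ‖Id+T‖=1+‖T‖ for all rank-one T. -/
theorem result :
    ¬ (∀ (X : Type) [NormedAddCommGroup X] [NormedSpace ℝ X] [CompleteSpace X]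
      [TopologicalSpace.SeparableSpace X],
      (¬ ∀ A : Set X, A.Nonempty → Convex ℝ A → Bornology.IsBounded A →
          ∃ (f : ℕ → (X →L[ℝ] ℝ)) (c : ℕ → ℝ),
            (∀ n, ∃ x ∈ A, c n < f n x) ∧
            ∀ y : ℕ → X, (∀ n, y n ∈ A ∧ c n < f n (y n)) →
              A ⊆ closure (convexHull ℝ (Set.range y))) →
      ∃ (Y : Type) (_ : NormedAddCommGroup Y) (_ : NormedSpace ℝ Y),
        Nonempty (X ≃L[ℝ] Y) ∧
        ∀ (f : Y →L[ℝ] ℝ) (v : Y),
          ‖ContinuousLinearMap.id ℝ Y + f.smulRight v‖ = 1 + ‖f.smulRight v‖) := by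
  intro H
  obtain ⟨Y, i1, i2, ⟨Φ⟩, hDP⟩ := H Pool.Agent.E11434.X (by
    intro hall
    obtain ⟨f, c, hne, hdet⟩ := hall (convexHull ℝ (Set.range Pool.Agent.E11434.xX))
      ⟨_, subset_convexHull ℝ _ ⟨[], rfl⟩⟩ (convex_convexHull ℝ _) (by
        rw [isBounded_convexHull, isBounded_iff_forall_norm_le]
        refine ⟨1, ?_⟩
        rintro _ ⟨t, rfl⟩
        exact Pool.Agent.E11434.norm_xX_le t)
    obtain ⟨y, hy1, hy2⟩ := Pool.Agent.E11434.not_SCD f c hne
    exact hy2 (hdet y hy1))
  exact Pool.Agent.E11434.no_DP Φ hDP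

end Pool.Agent.S06450
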