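import Pool.Statements.S06542
import Pool.Agent.MP_e9afb0_an.SemiEberlein

set_option autoImplicit false
open Pool Pool.MP_e9afb0_an

namespace Pool.Agent.S06542

/-- The negation of the preceding statement: For every real Banach space whose weak* dual unit ball embeds into [0,1]^Γ with the c₀ points dense (semi-Eberlein), the ball also embeds into [-1,1]^Γ' with the finitely supported points dense. -/
theorem result :
    ¬ (∀ (X : Type) [NormedAddCommGroup X] [NormedSpace ℝ X] [CompleteSpace X],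
      (∃ (Γ : Type) (h : {φ : WeakDual ℝ X // ∀ x : X, |φ x| ≤ ‖x‖} → (Γ → ℝ)),
          Topology.IsEmbedding h ∧
          (∀ k γ, h k γ ∈ Set.Icc (0 : ℝ) 1) ∧
          Dense {k | ∀ ε : ℝ, ε > 0 → {γ : Γ | ε ≤ |h k γ|}.Finite}) →
      ∃ (Γ : Type) (f : {φ : WeakDual ℝ X // ∀ x : X, |φ x| ≤ ‖x‖} → (Γ → ℝ)),
          Topology.IsEmbedding f ∧
          (∀ k γ, f k γ ∈ Set.Icc (-1 : ℝ) 1) ∧
          Dense {k | {γ : Γ | f k γ ≠ 0}.Finite}) := by
  intro H
  obtain ⟨Λ, f, hf, -, hd⟩ := H C(SemiEb.K ℝ, ℝ)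
    ⟨Finset (SemiEb.S ℝ) × Bool, SemiEb.hm, SemiEb.isEmbedding_hm, SemiEb.hm_mem,
      SemiEb.dense_hm⟩
  exact SemiEb.notF Λ f hf hd

end Pool.Agent.S06542
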