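import Pool.Statements.S06792
import Pool.Agent.MP_fb096d_an.Main

set_option autoImplicit false
open Pool Pool.MP_fb096d_an

namespace Pool.Agent.S06792

/-- The negation of the preceding statement: If two finitely generated groups are quasi-isometric for their word metrics and the first has rapid decay (convolution norm by functions on radius-r balls polynomially bounded in r), then so does the second. -/
theorem result :
    ¬ (∀ (G H : Type) [Group G] [Group H] (S : Finset G) (T : Finset H),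
    Subgroup.closure (S : Set G) = ⊤ → Subgroup.closure (T : Set H) = ⊤ →
    ∀ φ : G → H,
    (∃ K c : ℕ,
      (∀ x y : G, ∀ n : ℕ,
        (∃ l : List G, l.length ≤ n ∧ (∀ s ∈ l, s ∈ S ∨ s⁻¹ ∈ S) ∧ l.prod = x⁻¹ * y) →
        ∃ l : List H, l.length ≤ K * n + c ∧ (∀ t ∈ l, t ∈ T ∨ t⁻¹ ∈ T) ∧
          l.prod = (φ x)⁻¹ * φ y) ∧
      (∀ x y : G, ∀ n : ℕ,
        (∃ l : List H, l.length ≤ n ∧ (∀ t ∈ l, t ∈ T ∨ t⁻¹ ∈ T) ∧
          l.prod = (φ x)⁻¹ * φ y) →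
        ∃ l : List G, l.length ≤ K * n + c ∧ (∀ s ∈ l, s ∈ S ∨ s⁻¹ ∈ S) ∧
          l.prod = x⁻¹ * y) ∧
      (∀ h : H, ∃ x : G, ∃ l : List H, l.length ≤ c ∧ (∀ t ∈ l, t ∈ T ∨ t⁻¹ ∈ T) ∧
          l.prod = h⁻¹ * φ x)) →
    (∃ C : ℝ, ∃ k : ℕ, ∀ r : ℕ, ∀ f g : G →₀ ℂ,
      (∀ x ∈ f.support, ∃ l : List G, l.length ≤ r ∧ (∀ s ∈ l, s ∈ S ∨ s⁻¹ ∈ S) ∧
          l.prod = x) →
      ∀ U : Finset G, ∑ x ∈ U, ‖∑ y ∈ f.support, f y * g (y⁻¹ * x)‖ ^ 2 ≤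
        C * ((r : ℝ) + 1) ^ k * (∑ y ∈ f.support, ‖f y‖ ^ 2) *
          (∑ z ∈ g.support, ‖g z‖ ^ 2)) →
    (∃ C : ℝ, ∃ k : ℕ, ∀ r : ℕ, ∀ f g : H →₀ ℂ,
      (∀ x ∈ f.support, ∃ l : List H, l.length ≤ r ∧ (∀ t ∈ l, t ∈ T ∨ t⁻¹ ∈ T) ∧
          l.prod = x) →
      ∀ U : Finset H, ∑ x ∈ U, ‖∑ y ∈ f.support, f y * g (y⁻¹ * x)‖ ^ 2 ≤
        C * ((r : ℝ) + 1) ^ k * (∑ y ∈ f.support, ‖f y‖ ^ 2) *
          (∑ z ∈ g.support, ‖g z‖ ^ 2))) := by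
  intro hmain
  refine RDQI.not_rd_Lam ?_
  exact hmain RDQI.Ksub RDQI.Lam RDQI.SK RDQI.SL RDQI.closure_SK RDQI.closure_SL RDQI.toLam
    ⟨1, 0,
      fun x y n hb => by
        have := RDQI.ball_fwd RDQI.SK RDQI.SL RDQI.toLam RDQI.step1 x y n hb
        rw [one_mul, add_zero]; exact this,
      fun x y n hb => by
        have := RDQI.ball_bwd RDQI.SK RDQI.SL RDQI.toLam RDQI.toLam_injective RDQI.step2 x y n hb
        rw [one_mul, add_zero]; exact this,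
      fun p => by
        obtain ⟨k, rfl⟩ := RDQI.toLam_surjective p
        exact ⟨k, [], by simp, by simp, by simp⟩⟩
    ⟨1, 8, fun r f g hf U => RDQI.rd_K r f g hf U⟩
end Pool.Agent.S06792
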