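import Pool.Statements.S06952
import Pool.Agent.MP_048773_co.Assembly

set_option autoImplicit false
open Matrix Classical
open Pool Pool.MP_048773_co

namespace Pool.Agent.S06952

/-- The negation of the preceding statement: For each Δ ≥ 3 and all large n, any connected nonregular n-vertex graph with max degree Δ of largest spectral radius has all degrees Δ except one vertex of degree δ: Δ−1 (Δ, n odd), 1 (Δ odd, n even), Δ−2 (Δ even). -/
theorem result :
    ¬ (∀ Δ : ℕ, 3 ≤ Δ → ∃ N : ℕ, ∀ n : ℕ, N ≤ n →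
      ∀ G : SimpleGraph (Fin n),
        G.Connected → G.maxDegree = Δ → (∃ u v : Fin n, G.degree u ≠ G.degree v) →
        (∀ H : SimpleGraph (Fin n),
          H.Connected → H.maxDegree = Δ → (∃ u v : Fin n, H.degree u ≠ H.degree v) →
          sSup {r : ℝ | ∃ x : Fin n → ℝ, x ⬝ᵥ x = 1 ∧ r = x ⬝ᵥ (H.adjMatrix ℝ *ᵥ x)} ≤
          sSup {r : ℝ | ∃ x : Fin n → ℝ, x ⬝ᵥ x = 1 ∧ r = x ⬝ᵥ (G.adjMatrix ℝ *ᵥ x)}) →
        ∃ v : Fin n,
          G.degree v = (if Odd Δ then (if Odd n then Δ - 1 else 1) else Δ - 2) ∧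
          ∀ u : Fin n, u ≠ v → G.degree u = Δ) := by
  intro hconj
  obtain ⟨q, hq⟩ : ∃ q : ℕ, q = 12000000 := ⟨_, rfl⟩
  obtain ⟨N, hN⟩ := hconj (q + 2) (by omega)
  obtain ⟨k, hk⟩ : ∃ k : ℕ, k = N + q ^ 5 := ⟨_, rfl⟩
  have hq6 : 6 ∣ q := ⟨2000000, by omega⟩
  have hkn : k ≤ k * (q + 3) + (q + 3) + q / 2 := by
    have := Nat.le_mul_of_pos_right k (show 0 < q + 3 by omega)
    omega
  -- the set of admissible graphs
  obtain ⟨n, hn⟩ : ∃ n : ℕ, n = k * (q + 3) + (q + 3) + q / 2 := ⟨_, rfl⟩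
  have hne : ∃ H : SimpleGraph (Fin n), H.Connected ∧ H.maxDegree = q + 2 ∧
      (∃ u v : Fin n, H.degree u ≠ H.degree v) := by
    subst hn
    obtain ⟨H, hdec, hHc, hHle, ⟨u1, hu1⟩, ⟨u2, hu2⟩, -⟩ := exists_RGraph q k (by omega) hq6
    have hdec' : hdec = fun a b => propDecidable (H.Adj a b) := Subsingleton.elim _ _
    subst hdec'
    have hHdeg : ∀ v, H.degree v ≤ q + 2 := fun v => by convert hHle v
    have h1 : H.degree u1 = q + 2 := by convert hu1
    have h2 : H.degree u2 ≠ q + 2 := by convert hu2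
    refine ⟨H, hHc, ?_, u1, u2, by rw [h1]; exact fun h => h2 h.symm⟩
    apply le_antisymm
    · exact SimpleGraph.maxDegree_le_of_forall_degree_le _ _ hHdeg
    · have := H.degree_le_maxDegree u1
      omega
  obtain ⟨G, hGmem, hGmax⟩ := Set.exists_max_image
    {H : SimpleGraph (Fin n) | H.Connected ∧ H.maxDegree = q + 2 ∧
      (∃ u v : Fin n, H.degree u ≠ H.degree v)} (fun H => lamS H) (Set.toFinite _) hne
  have hNn : N ≤ n := by
    rw [hn]
    have : N ≤ k := by rw [hk]; exact Nat.le_add_right _ _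
    omega
  obtain ⟨v0, hv0, hdeg⟩ := hN n hNn G hGmem.1 hGmem.2.1 hGmem.2.2
    (fun H h1 h2 h3 => hGmax H ⟨h1, h2, h3⟩)
  have hodd : ¬ Odd (q + 2) := by
    rw [Nat.not_odd_iff_even]
    exact ⟨6000001, by omega⟩
  rw [if_neg hodd] at hv0
  refine no_extremal q k n (by omega) hq6 hn ?_ G hGmem.1 (by simpa using hv0) hdeg
    (fun H h1 h2 h3 => hGmax H ⟨h1, h2, h3⟩)
  rw [hn]
  have : q ^ 5 ≤ k := by rw [hk]; exact Nat.le_add_left _ _
  omega

end Pool.Agent.S06952
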