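import Pool.Statements.S07998
-- import your own Pool.Agent.* helpers here

set_option autoImplicit false
open Pool Pool.MP_32d4a3_co

namespace Pool.Agent.S07998

/-- Digit `i` (base four) of the code `n`. -/
def dig (n : ℕ) (i : Fin 7) : ℕ := n / 4 ^ (i : ℕ) % 4

/-- The code of a word of length seven over `{0,1,2,3}`. -/
def enc (a b c d e f g : ℕ) : ℕ :=
  a + 4 * (b + 4 * (c + 4 * (d + 4 * (e + 4 * (f + 4 * g)))))

/-- The seven cyclic rotations of a word. -/
def rots (a b c d e f g : ℕ) : List ℕ :=
  [enc a b c d e f g, enc g a b c d e f, enc f g a b c d e, enc e f g a b c d,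
   enc d e f g a b c, enc c d e f g a b, enc b c d e f g a]

/-- The 22 words. -/
def wds : List ℕ :=
  enc 3 3 3 3 3 3 3 :: (rots 2 3 3 2 2 2 0 ++ rots 2 2 2 3 2 3 0 ++ rots 3 2 2 2 3 2 1)

/-- Number of common digits. -/
def agr (m n : ℕ) : ℕ := ((List.finRange 7).filter (fun i => dig m i == dig n i)).length

/-- `noCover k L`: the branching search finds no cover of `L` by `k` (coordinate, value) pairs. -/
def noCover : ℕ → List ℕ → Bool
  | _, [] => false
  | 0, _ :: _ => true
  | k + 1, w :: L =>
      (List.finRange 7).all fun i => noCover k ((w :: L).filter fun v => !(dig v i == dig w i))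

theorem agr_eq (m n : ℕ) :
    (Finset.univ.filter (fun i : Fin 7 => dig m i = dig n i)).card = agr m n := by
  have h : Finset.univ.filter (fun i : Fin 7 => dig m i = dig n i) =
      ((List.finRange 7).filter (fun i => dig m i == dig n i)).toFinset := by
    ext i
    simp
  rw [h, List.toFinset_card_of_nodup ((List.nodup_finRange 7).filter _), agr]

theorem noCover_spec : ∀ (k : ℕ) (L : List ℕ), noCover k L = true →
    ∀ C : Finset (Fin 7 × ℕ), (∀ w ∈ L, ∃ i : Fin 7, (i, dig w i) ∈ C) → k < C.card
  | _, [], h, _, _ => by simp [noCover] at h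
  | 0, w :: L, _, C, hC => by
      obtain ⟨i, hi⟩ := hC w (by simp)
      exact Finset.card_pos.mpr ⟨_, hi⟩
  | k + 1, w :: L, h, C, hC => by
      obtain ⟨i, hi⟩ := hC w (by simp)
      have h' := h
      rw [noCover, List.all_eq_true] at h'
      have h1 := h' i (List.mem_finRange i)
      have h2 := noCover_spec k _ h1 (C.erase (i, dig w i)) (by
        intro v hv
        rw [List.mem_filter] at hv
        obtain ⟨hv1, hv2⟩ := hv
        obtain ⟨j, hj⟩ := hC v hv1
        refine ⟨j, Finset.mem_erase.mpr ⟨?_, hj⟩⟩
        intro he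
        have hji : j = i := congrArg Prod.fst he
        subst hji
        have : dig v j = dig w j := congrArg Prod.snd he
        simp [this] at hv2)
      rw [Finset.card_erase_of_mem hi] at h2
      omega

set_option maxRecDepth 100000 in
theorem wds_agree : (wds.all fun m => wds.all fun n => decide (2 ≤ agr m n)) = true := by
  decide +kernel

set_option maxRecDepth 100000 in
theorem wds_noCover : noCover 3 wds = true := by decide +kernel


/-- The negation of the preceding statement: For 2 ≤ t ≤ r, every finite r-partite r-uniform hypergraph whose edges pairwise share at least t vertices has a vertex cover of size at most floor((r−t)/2)+1, and some such hypergraph needs exactly that many. -/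
theorem result :
    ¬ (∀ r t : ℕ, 2 ≤ t → t ≤ r →
      (∀ H : Finset (Fin r → ℕ),
          (∀ e ∈ H, ∀ f ∈ H, t ≤ (Finset.univ.filter (fun i => e i = f i)).card) →
          ∃ C : Finset (Fin r × ℕ), C.card ≤ (r - t) / 2 + 1 ∧
            ∀ e ∈ H, ∃ i : Fin r, (i, e i) ∈ C) ∧
      (∃ H : Finset (Fin r → ℕ),
          (∀ e ∈ H, ∀ f ∈ H, t ≤ (Finset.univ.filter (fun i => e i = f i)).card) ∧
          ∀ C : Finset (Fin r × ℕ), (∀ e ∈ H, ∃ i : Fin r, (i, e i) ∈ C) →
            (r - t) / 2 + 1 ≤ C.card)) := by
  intro h
  have h1 := (h 7 2 (le_refl 2) (by norm_num)).1 ((wds.map dig).toFinset) (by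
    intro e he f hf
    rw [List.mem_toFinset, List.mem_map] at he hf
    obtain ⟨m, hm, rfl⟩ := he
    obtain ⟨n, hn, rfl⟩ := hf
    rw [agr_eq]
    have h2 := wds_agree
    rw [List.all_eq_true] at h2
    have h3 := h2 m hm
    rw [List.all_eq_true] at h3
    exact of_decide_eq_true (h3 n hn))
  obtain ⟨C, hC, hcov⟩ := h1
  have h4 := noCover_spec 3 wds wds_noCover C (by
    intro w hw
    exact hcov (dig w) (List.mem_toFinset.mpr (List.mem_map.mpr ⟨w, hw, rfl⟩)))
  omega

end Pool.Agent.S07998
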