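import Pool.Statements.S08194

set_option autoImplicit false
open Pool Pool.MP_3abe58_co

namespace Pool.Agent.S08194

open MvPolynomial

/-! ### The quiver and the mutations of its exchange matrix -/

/-- The exchange matrix: arrows `0 ⇒ 1 → 3 → 0` and `3 ⇒ 2 → 1`. -/
def B0 : Matrix (Fin 4) (Fin 4) ℤ := !![0, 2, 0, -1; -2, 0, -1, 1; 0, 1, 0, -2; 1, -1, 2, 0]
def B1 : Matrix (Fin 4) (Fin 4) ℤ := !![0, -2, 0, 1; 2, 0, -1, -1; 0, 1, 0, -2; -1, 1, 2, 0]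
def B2 : Matrix (Fin 4) (Fin 4) ℤ := !![0, -1, 2, -1; 1, 0, -1, 1; -2, 1, 0, 2; 1, -1, -2, 0]
def B3 : Matrix (Fin 4) (Fin 4) ℤ := !![0, 1, 1, -1; -1, 0, 1, -1; -1, -1, 0, 3; 1, 1, -3, 0]
def B4 : Matrix (Fin 4) (Fin 4) ℤ := !![0, 1, -1, 2; -1, 0, -1, 2; 1, 1, 0, -3; -2, -2, 3, 0]

/-- the matrix part of a mutation -/
def muB (B : Matrix (Fin 4) (Fin 4) ℤ) (k : Fin 4) : Matrix (Fin 4) (Fin 4) ℤ :=
  Matrix.of fun i j =>
      if i = k ∨ j = k then -B i j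
      else B i j + Int.sign (B i k) * max (B i k * B k j) 0

lemma muB0 : muB B0 0 = B1 := by decide +kernel
lemma muB1 : muB B1 3 = B2 := by decide +kernel
lemma muB2 : muB B2 1 = B3 := by decide +kernel
lemma muB3 : muB B3 2 = B4 := by decide +kernel

section field

variable {K : Type} [Field K]

/-- the new cluster variable -/
noncomputable def newVar (v : Fin 4 → K) (B : Matrix (Fin 4) (Fin 4) ℤ) (k : Fin 4) : K :=
  (∏ i, v i ^ (max (B i k) 0).toNat + ∏ i, v i ^ (max (-B i k) 0).toNat) / v k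

lemma new0 (a b c d : K) : newVar ![a, b, c, d] B0 0 = (d + b ^ 2) / a := by
  simp [newVar, B0, Fin.prod_univ_four]
lemma new1 (a b c d : K) : newVar ![a, b, c, d] B1 3 = (a + b * c ^ 2) / d := by
  simp [newVar, B1, Fin.prod_univ_four]
lemma new2 (a b c d : K) : newVar ![a, b, c, d] B2 1 = (a * d + c) / b := by
  simp [newVar, B2, Fin.prod_univ_four, add_comm]
lemma new3 (a b c d : K) : newVar ![a, b, c, d] B3 2 = (a * b + d ^ 3) / c := by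
  simp [newVar, B3, Fin.prod_univ_four]
lemma new4 (a b c d : K) : newVar ![a, b, c, d] B4 0 = (c + b * d ^ 2) / a := by
  simp [newVar, B4, Fin.prod_univ_four]

omit [Field K] in
lemma upd0 (a b c d e : K) : Function.update ![a, b, c, d] 0 e = ![e, b, c, d] := by
  funext i; fin_cases i <;> rfl
omit [Field K] in
lemma upd1 (a b c d e : K) : Function.update ![a, b, c, d] 1 e = ![a, e, c, d] := by
  funext i; fin_cases i <;> rfl
omit [Field K] in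
lemma upd2 (a b c d e : K) : Function.update ![a, b, c, d] 2 e = ![a, b, e, d] := by
  funext i; fin_cases i <;> rfl
omit [Field K] in
lemma upd3 (a b c d e : K) : Function.update ![a, b, c, d] 3 e = ![a, b, c, e] := by
  funext i; fin_cases i <;> rfl

end field

/-- The numerator of the cluster variable with index `2`. -/
def P2 {K : Type} [CommRing K] (a b c d : K) : K :=
  a^3*b^4*c^6 + 3*a^2*b^5*c^4 + 3*a^2*b^3*c^4*d + a^2*b^2*c*d^3 + a^2*c*d^4 + 3*a*b^6*c^2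
  + a*b^5*c^2*d^2 + 6*a*b^4*c^2*d + 2*a*b^3*c^2*d^3 + 3*a*b^2*c^2*d^2 + a*b*c^2*d^4 + b^7
  + b^6*d^2 + 3*b^5*d + 3*b^4*d^3 + 3*b^3*d^2 + 3*b^2*d^4 + b*d^3 + d^5

/-- The numerator of the cluster variable with index `0`. -/
def P0 {K : Type} [CommRing K] (a b c d : K) : K :=
  a^4*b^2*c^6 + a^3*b^3*c^7 + 3*a^3*b^3*c^4 + 2*a^3*b*c^4*d + a^3*c*d^3 + 3*a^2*b^4*c^5
  + 3*a^2*b^4*c^2 + a^2*b^3*c^2*d^2 + 3*a^2*b^2*c^5*d + 4*a^2*b^2*c^2*d + a^2*b*c^2*d^3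
  + a^2*c^2*d^2 + 3*a*b^5*c^3 + a*b^5 + a*b^4*d^2 + 6*a*b^3*c^3*d + 2*a*b^3*d + 2*a*b^2*d^3
  + 3*a*b*c^3*d^2 + a*b*d^2 + a*d^4 + b^6*c + 3*b^4*c*d + 3*b^2*c*d^2 + c*d^3

section vars

variable {K : Type} [Field K] (a b c d : K)

/-- the cluster variables, in order of appearance -/
noncomputable def y0 : K := (d + b ^ 2) / a
noncomputable def y3 : K := (y0 a b d + b * c ^ 2) / d
noncomputable def y1 : K := (y0 a b d * y3 a b c d + c) / b
noncomputable def y2 : K := (y0 a b d * y1 a b c d + y3 a b c d ^ 3) / c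
noncomputable def z0 : K := (y2 a b c d + y1 a b c d * y3 a b c d ^ 2) / y0 a b d

variable (ha : a ≠ 0) (hb : b ≠ 0) (hc : c ≠ 0) (hd : d ≠ 0) (h0 : d + b ^ 2 ≠ 0)

include ha hb hc hd in
lemma val2 : y2 a b c d = P2 a b c d / (a ^ 3 * b * c * d ^ 3) := by
  unfold y2 y1 y3 y0 P2
  field_simp
  ring

include ha hb hc hd h0 in
lemma val0 : z0 a b c d = P0 a b c d / (a ^ 3 * b * c * d ^ 3) := by
  unfold z0
  rw [val2 a b c d ha hb hc hd]
  unfold y1 y3 y0 P2 P0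
  field_simp
  ring

end vars

/-- the polynomial ring -/
abbrev R := MvPolynomial (Fin 4) ℚ

/-- its field of fractions -/
abbrev F := FractionRing R

/-- mutation of seeds -/
noncomputable def mu (s : (Fin 4 → F) × Matrix (Fin 4) (Fin 4) ℤ) (k : Fin 4) :
    (Fin 4 → F) × Matrix (Fin 4) (Fin 4) ℤ :=
  (Function.update s.1 k
      ((∏ i, s.1 i ^ (max (s.2 i k) 0).toNat + ∏ i, s.1 i ^ (max (-s.2 i k) 0).toNat) / s.1 k),
    Matrix.of fun i j =>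
      if i = k ∨ j = k then -s.2 i j
      else s.2 i j + Int.sign (s.2 i k) * max (s.2 i k * s.2 k j) 0)

lemma mu_eq (v : Fin 4 → F) (B : Matrix (Fin 4) (Fin 4) ℤ) (k : Fin 4) :
    mu (v, B) k = (Function.update v k (newVar v B k), muB B k) := rfl

/-- the initial variables in the field -/
noncomputable def x (i : Fin 4) : F := algebraMap R F (X i)

/-- the cluster reached by the mutations `0, 3, 1, 2, 0` -/
lemma fold_eq : ([0, 3, 1, 2, 0] : List (Fin 4)).foldl mu (fun j => algebraMap R F (X j), B0) =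
    (![z0 (x 0) (x 1) (x 2) (x 3), y1 (x 0) (x 1) (x 2) (x 3), y2 (x 0) (x 1) (x 2) (x 3),
      y3 (x 0) (x 1) (x 2) (x 3)], muB B4 0) := by
  have h : (fun j => algebraMap R F (X j)) = ![x 0, x 1, x 2, x 3] := by
    funext i; fin_cases i <;> rfl
  rw [h]
  simp only [List.foldl_cons, List.foldl_nil]
  have s1 : ∀ a b c d : F, mu (![a, b, c, d], B0) 0 = (![(d + b ^ 2) / a, b, c, d], B1) := by
    intro a b c d
    rw [mu_eq, muB0, new0, upd0]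
  have s2 : ∀ a b c d : F, mu (![a, b, c, d], B1) 3 = (![a, b, c, (a + b * c ^ 2) / d], B2) := by
    intro a b c d
    rw [mu_eq, muB1, new1, upd3]
  have s3 : ∀ a b c d : F, mu (![a, b, c, d], B2) 1 = (![a, (a * d + c) / b, c, d], B3) := by
    intro a b c d
    rw [mu_eq, muB2, new2, upd1]
  have s4 : ∀ a b c d : F, mu (![a, b, c, d], B3) 2 = (![a, b, (a * b + d ^ 3) / c, d], B4) := by
    intro a b c d
    rw [mu_eq, muB3, new3, upd2]
  have s5 : ∀ a b c d : F, mu (![a, b, c, d], B4) 0 =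
      (![(c + b * d ^ 2) / a, b, c, d], muB B4 0) := by
    intro a b c d
    rw [mu_eq, new4, upd0]
  rw [s1, s2, s3, s4, s5]
  rfl

lemma alg_P0 : algebraMap R F (P0 (X 0) (X 1) (X 2) (X 3)) = P0 (x 0) (x 1) (x 2) (x 3) := by
  simp only [P0, x, map_add, map_mul, map_pow, map_ofNat]

lemma alg_P2 : algebraMap R F (P2 (X 0) (X 1) (X 2) (X 3)) = P2 (x 0) (x 1) (x 2) (x 3) := by
  simp only [P2, x, map_add, map_mul, map_pow, map_ofNat]

lemma not_dvd_aux (Q : R) (i : Fin 4) (p : Fin 4 → ℚ) (hp : p i = 0) (hQ : eval p Q ≠ 0) :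
    ¬ (X i : R) ∣ Q := by
  rintro ⟨q, rfl⟩
  apply hQ
  rw [map_mul, eval_X, hp, zero_mul]

lemma eval_P0 (p : Fin 4 → ℚ) :
    eval p (P0 (X 0) (X 1) (X 2) (X 3)) = P0 (p 0) (p 1) (p 2) (p 3) := by
  simp only [P0, map_add, map_mul, map_pow, map_ofNat, eval_X]

lemma eval_P2 (p : Fin 4 → ℚ) :
    eval p (P2 (X 0) (X 1) (X 2) (X 3)) = P2 (p 0) (p 1) (p 2) (p 3) := by
  simp only [P2, map_add, map_mul, map_pow, map_ofNat, eval_X]

lemma not_dvd_P0 (i : Fin 4) : ¬ (X i : R) ∣ P0 (X 0) (X 1) (X 2) (X 3) := by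
  fin_cases i
  · refine not_dvd_aux _ _ ![0, 1, 1, 1] rfl ?_
    rw [eval_P0]; show P0 (0 : ℚ) 1 1 1 ≠ 0; norm_num [P0]
  · refine not_dvd_aux _ _ ![1, 0, 1, 1] rfl ?_
    rw [eval_P0]; show P0 (1 : ℚ) 0 1 1 ≠ 0; norm_num [P0]
  · refine not_dvd_aux _ _ ![1, 1, 0, 1] rfl ?_
    rw [eval_P0]; show P0 (1 : ℚ) 1 0 1 ≠ 0; norm_num [P0]
  · refine not_dvd_aux _ _ ![1, 1, 1, 0] rfl ?_
    rw [eval_P0]; show P0 (1 : ℚ) 1 1 0 ≠ 0; norm_num [P0]

lemma not_dvd_P2 (i : Fin 4) : ¬ (X i : R) ∣ P2 (X 0) (X 1) (X 2) (X 3) := by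
  fin_cases i
  · refine not_dvd_aux _ _ ![0, 1, 1, 1] rfl ?_
    rw [eval_P2]; show P2 (0 : ℚ) 1 1 1 ≠ 0; norm_num [P2]
  · refine not_dvd_aux _ _ ![1, 0, 1, 1] rfl ?_
    rw [eval_P2]; show P2 (1 : ℚ) 0 1 1 ≠ 0; norm_num [P2]
  · refine not_dvd_aux _ _ ![1, 1, 0, 1] rfl ?_
    rw [eval_P2]; show P2 (1 : ℚ) 1 0 1 ≠ 0; norm_num [P2]
  · refine not_dvd_aux _ _ ![1, 1, 1, 0] rfl ?_
    rw [eval_P2]; show P2 (1 : ℚ) 1 1 0 ≠ 0; norm_num [P2]

lemma x_ne (i : Fin 4) : x i ≠ 0 := by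
  unfold x
  rw [Ne, map_eq_zero_iff _ (IsFractionRing.injective R F)]
  exact X_ne_zero i

lemma y0_num_ne : x 3 + x 1 ^ 2 ≠ 0 := by
  have h : x 3 + x 1 ^ 2 = algebraMap R F (X 3 + X 1 ^ 2) := by
    simp only [x, map_add, map_pow]
  rw [h, Ne, map_eq_zero_iff _ (IsFractionRing.injective R F)]
  intro h'
  have := congrArg (eval (fun _ => (1 : ℚ))) h'
  simp only [map_add, map_pow, eval_X, map_zero] at this
  norm_num at this

lemma denom_eq : (∏ i, (algebraMap R F (X i)) ^ ((![3, 1, 1, 3] : Fin 4 → ℤ) i)) =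
    x 0 ^ 3 * x 1 * x 2 * x 3 ^ 3 := by
  rw [Fin.prod_univ_four]
  show x 0 ^ (3 : ℤ) * x 1 ^ (1 : ℤ) * x 2 ^ (1 : ℤ) * x 3 ^ (3 : ℤ) = _
  rw [zpow_one, zpow_one]
  norm_cast

/-- The negation of the preceding statement: In every coefficient-free cluster algebra of a skew-symmetrizable integer matrix, two cluster monomials with the same denominator vector relative to the initial cluster are equal. -/
theorem result :
    ¬ (∀ (n : ℕ) (B : Matrix (Fin n) (Fin n) ℤ),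
    (∃ D : Fin n → ℤ, (∀ i, 0 < D i) ∧ ∀ i j, D i * B i j = -(D j * B j i)) →
    ∀ μ : (Fin n → FractionRing (MvPolynomial (Fin n) ℚ)) × Matrix (Fin n) (Fin n) ℤ →
        Fin n → (Fin n → FractionRing (MvPolynomial (Fin n) ℚ)) × Matrix (Fin n) (Fin n) ℤ,
    (∀ (s : (Fin n → FractionRing (MvPolynomial (Fin n) ℚ)) × Matrix (Fin n) (Fin n) ℤ) (k : Fin n),
        μ s k =
          (Function.update s.1 k
              ((∏ i, s.1 i ^ (max (s.2 i k) 0).toNat + ∏ i, s.1 i ^ (max (-s.2 i k) 0).toNat) / s.1 k),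
            Matrix.of fun i j =>
              if i = k ∨ j = k then -s.2 i j
              else s.2 i j + Int.sign (s.2 i k) * max (s.2 i k * s.2 k j) 0)) →
    ∀ (l₁ l₂ : List (Fin n)) (m₁ m₂ : Fin n → ℕ) (d : Fin n → ℤ),
    (∃ N : MvPolynomial (Fin n) ℚ, (∀ i, ¬ MvPolynomial.X i ∣ N) ∧
        ∏ i, ((l₁.foldl μ (fun j => algebraMap (MvPolynomial (Fin n) ℚ)
            (FractionRing (MvPolynomial (Fin n) ℚ)) (MvPolynomial.X j), B)).1 i) ^ (m₁ i) =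
          algebraMap (MvPolynomial (Fin n) ℚ) (FractionRing (MvPolynomial (Fin n) ℚ)) N /
            ∏ i, (algebraMap (MvPolynomial (Fin n) ℚ) (FractionRing (MvPolynomial (Fin n) ℚ))
              (MvPolynomial.X i)) ^ (d i)) →
    (∃ N : MvPolynomial (Fin n) ℚ, (∀ i, ¬ MvPolynomial.X i ∣ N) ∧
        ∏ i, ((l₂.foldl μ (fun j => algebraMap (MvPolynomial (Fin n) ℚ)
            (FractionRing (MvPolynomial (Fin n) ℚ)) (MvPolynomial.X j), B)).1 i) ^ (m₂ i) =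
          algebraMap (MvPolynomial (Fin n) ℚ) (FractionRing (MvPolynomial (Fin n) ℚ)) N /
            ∏ i, (algebraMap (MvPolynomial (Fin n) ℚ) (FractionRing (MvPolynomial (Fin n) ℚ))
              (MvPolynomial.X i)) ^ (d i)) →
    ∏ i, ((l₁.foldl μ (fun j => algebraMap (MvPolynomial (Fin n) ℚ)
        (FractionRing (MvPolynomial (Fin n) ℚ)) (MvPolynomial.X j), B)).1 i) ^ (m₁ i) =
      ∏ i, ((l₂.foldl μ (fun j => algebraMap (MvPolynomial (Fin n) ℚ)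
        (FractionRing (MvPolynomial (Fin n) ℚ)) (MvPolynomial.X j), B)).1 i) ^ (m₂ i)) := by
  intro h
  have h1 := h 4 B0 ⟨fun _ => 1, fun _ => one_pos, by decide⟩ mu (fun s k => rfl)
    [0, 3, 1, 2, 0] [0, 3, 1, 2, 0] ![1, 0, 0, 0] ![0, 0, 1, 0] ![3, 1, 1, 3]
  rw [fold_eq, denom_eq] at h1
  have e0 : (∏ i, (![z0 (x 0) (x 1) (x 2) (x 3), y1 (x 0) (x 1) (x 2) (x 3),
      y2 (x 0) (x 1) (x 2) (x 3), y3 (x 0) (x 1) (x 2) (x 3)] : Fin 4 → F) i ^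
        ((![1, 0, 0, 0] : Fin 4 → ℕ) i)) = z0 (x 0) (x 1) (x 2) (x 3) := by
    rw [Fin.prod_univ_four]
    show z0 (x 0) (x 1) (x 2) (x 3) ^ 1 * y1 (x 0) (x 1) (x 2) (x 3) ^ 0 *
      y2 (x 0) (x 1) (x 2) (x 3) ^ 0 * y3 (x 0) (x 1) (x 2) (x 3) ^ 0 = _
    rw [pow_one, pow_zero, pow_zero, pow_zero, mul_one, mul_one, mul_one]
  have e2 : (∏ i, (![z0 (x 0) (x 1) (x 2) (x 3), y1 (x 0) (x 1) (x 2) (x 3),
      y2 (x 0) (x 1) (x 2) (x 3), y3 (x 0) (x 1) (x 2) (x 3)] : Fin 4 → F) i ^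
        ((![0, 0, 1, 0] : Fin 4 → ℕ) i)) = y2 (x 0) (x 1) (x 2) (x 3) := by
    rw [Fin.prod_univ_four]
    show z0 (x 0) (x 1) (x 2) (x 3) ^ 0 * y1 (x 0) (x 1) (x 2) (x 3) ^ 0 *
      y2 (x 0) (x 1) (x 2) (x 3) ^ 1 * y3 (x 0) (x 1) (x 2) (x 3) ^ 0 = _
    rw [pow_one, pow_zero, pow_zero, pow_zero, mul_one, one_mul, one_mul]
  rw [e0, e2] at h1
  have v0 := val0 (x 0) (x 1) (x 2) (x 3) (x_ne 0) (x_ne 1) (x_ne 2) (x_ne 3) y0_num_ne
  have v2 := val2 (x 0) (x 1) (x 2) (x 3) (x_ne 0) (x_ne 1) (x_ne 2) (x_ne 3)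
  have h2 := h1 ⟨P0 (X 0) (X 1) (X 2) (X 3), not_dvd_P0, by rw [v0, alg_P0]⟩
    ⟨P2 (X 0) (X 1) (X 2) (X 3), not_dvd_P2, by rw [v2, alg_P2]⟩
  have hden : x 0 ^ 3 * x 1 * x 2 * x 3 ^ 3 ≠ 0 :=
    mul_ne_zero (mul_ne_zero (mul_ne_zero (pow_ne_zero _ (x_ne 0)) (x_ne 1)) (x_ne 2))
      (pow_ne_zero _ (x_ne 3))
  rw [v0, v2, div_left_inj' hden, ← alg_P0, ← alg_P2] at h2
  have h3 := IsFractionRing.injective R F h2
  have h4 := congrArg (eval (fun _ => (1 : ℚ))) h3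
  rw [eval_P0, eval_P2] at h4
  norm_num [P0, P2] at h4

end Pool.Agent.S08194
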