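import Pool.Statements.S08237
import Pool.Agent.LW.ZB

set_option autoImplicit false
open Pool Pool.MP_3ca0d5_co

namespace Pool.Agent.S08237

/-- For k ≥ 1, if a finite k-connected graph has a set E of k pairwise vertex-disjoint edges that no cycle passes through all of, then k is odd and deleting the edges of E disconnects the graph. -/
theorem result :
    ∀ (V : Type) [Fintype V] (G : SimpleGraph V) (k : ℕ) (E : Finset (Sym2 V)),
      1 ≤ k → k < Fintype.card V →
      (∀ S : Finset V, S.card < k → (G.induce ((↑S : Set V)ᶜ)).Connected) →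
      (∀ e ∈ E, e ∈ G.edgeSet) → E.card = k →
      (∀ e ∈ E, ∀ f ∈ E, e ≠ f → ∀ v : V, v ∈ e → v ∉ f) →
      (¬ ∃ (u : V) (p : G.Walk u u), p.IsCycle ∧ ∀ e ∈ E, e ∈ p.edges) →
      Odd k ∧ ¬ (G.deleteEdges (↑E : Set (Sym2 V))).Connected := by
  intro V _ G k E h1 _ hconn hL hcard hind hno
  exact Pool.Agent.LW.lovasz_woodall h1 hconn hL hcard hind hno

end Pool.Agent.S08237
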