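import Pool.Statements.S08901
import Pool.Agent.BlockSets.Beta
-- import your own Pool.Agent.* helpers here

set_option autoImplicit false
open Pool Pool.MP_5949aa_co

namespace Pool.Agent.S08901

open Pool.Agent.BlockSets

attribute [-instance] Sum.instBEq

/-- A colouring of all words, made of the colourings `c N` of the words of length `N`. -/
noncomputable def col {m k : ℕ} (hk : 0 < k) (c : ∀ N : ℕ, 0 < N → (Fin N → Fin m) → Fin k)
    (w : FreeMonoid (Fin m)) : Fin k :=
  if h : 0 < (FreeMonoid.toList w).length then c _ h (fun i => (FreeMonoid.toList w).get i)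
  else ⟨0, hk⟩

theorem col_ofFn {m k : ℕ} (hk : 0 < k) (c : ∀ N : ℕ, 0 < N → (Fin N → Fin m) → Fin k)
    (w : FreeMonoid (Fin m)) {N : ℕ} (hN : 0 < N) (f : Fin N → Fin m)
    (hw : FreeMonoid.toList w = List.ofFn f) : col hk c w = c N hN f := by
  have hlen : (FreeMonoid.toList w).length = N := by rw [hw, List.length_ofFn]
  subst hlen
  have hf : (fun i => (FreeMonoid.toList w).get i) = f := by
    apply List.ofFn_injective
    rw [← hw]
    exact List.ofFn_get _
  unfold col
  rw [dif_pos hN, hf]

/-- The statement with the block set given by a word with variables, for a nonempty template. -/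
theorem core {m k l : ℕ} (hm : 0 < m) (hk : 0 < k) (hl : 0 < l) (T : Fin l → Fin m) :
    ∃ n d : ℕ, 0 < n ∧ 0 < d ∧
      ∀ c : (Fin n → Fin m) → Fin k,
        ∃ I : Fin l → Finset (Fin n), ∃ a : Fin n → Fin m, ∃ col : Fin k,
          (∀ j, (I j).card = d) ∧
          (Pairwise fun j j' => Disjoint (I j) (I j')) ∧
          ∀ w : Fin n → Fin m,
            ((∀ i, (∀ j, i ∉ I j) → w i = a i) ∧
              ∃ σ : Equiv.Perm (Fin l), ∀ j, ∀ i ∈ I j, w i = T (σ j)) →
            c w = col := by
  classical
  obtain ⟨d, hd, z, hz⟩ := exists_ultrafilter T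
  by_contra hcon
  have hbad : ∀ N : ℕ, 0 < N → ∃ c : (Fin N → Fin m) → Fin k,
      ¬ ∃ I : Fin l → Finset (Fin N), ∃ a : Fin N → Fin m, ∃ col : Fin k,
          (∀ j, (I j).card = d) ∧
          (Pairwise fun j j' => Disjoint (I j) (I j')) ∧
          ∀ w : Fin N → Fin m,
            ((∀ i, (∀ j, i ∉ I j) → w i = a i) ∧
              ∃ σ : Equiv.Perm (Fin l), ∀ j, ∀ i ∈ I j, w i = T (σ j)) →
            c w = col := by
    intro N hN
    by_contra h
    push Not at h
    exact hcon ⟨N, d, hN, hd, h⟩
  choose c hc using hbad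
  obtain ⟨κ, hκ⟩ := Ultrafilter.eq_pure_of_finite (z.map (col hk c))
  have hC : {w | col hk c w = κ} ∈ z := by
    have h1 : ({κ} : Set (Fin k)) ∈ z.map (col hk c) := by
      rw [hκ, Ultrafilter.mem_pure]
      rfl
    exact h1
  obtain ⟨W, hWcnt, hWC⟩ := hz _ hC
  set L : List (Fin m ⊕ Fin l) := FreeMonoid.toList W with hL
  have hN : 0 < L.length := by
    have h1 : 0 < cnt ⟨0, hl⟩ L := by rw [hWcnt]; exact hd
    exact h1.trans_le List.count_le_length
  refine hc L.length hN ⟨fun j => Finset.univ.filter fun i => L.get i = Sum.inr j,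
    fun i => Sum.elim id (fun _ => ⟨0, hm⟩) (L.get i), κ, ?_, ?_, ?_⟩
  · intro j
    rw [← hWcnt j]
    have h1 := Fin.card_filter_univ_eq_vector_get_eq_count (Sum.inr j : Fin m ⊕ Fin l)
      (⟨L, rfl⟩ : List.Vector (Fin m ⊕ Fin l) L.length)
    exact h1
  · intro j j' hjj'
    rw [Finset.disjoint_left]
    intro i hi hi'
    rw [Finset.mem_filter] at hi hi'
    exact hjj' (Sum.inr.inj (hi.2.symm.trans hi'.2))
  · rintro w ⟨hw, σ, hσ⟩
    have h1 := hWC σ⁻¹
    have h2 : FreeMonoid.toList (evw T σ⁻¹ W) = List.ofFn w := by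
      unfold evw
      rw [FreeMonoid.toList_map, inv_inv, ← hL]
      apply List.ext_get
      · simp
      · intro i h1 h2
        simp only [List.get_eq_getElem, List.getElem_map, List.getElem_ofFn]
        have hi : i < L.length := by simpa using h1
        rcases hLi : L[i] with x | j
        · have h3 := hw ⟨i, hi⟩ (fun j => by
            rw [Finset.mem_filter]
            rintro ⟨_, h4⟩
            rw [List.get_eq_getElem] at h4
            simp only at h4
            rw [hLi] at h4
            exact Sum.inl_ne_inr h4)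
          rw [h3]
          simp only [List.get_eq_getElem, hLi]
          rfl
        · have h3 := hσ j ⟨i, hi⟩ (by
            rw [Finset.mem_filter]
            exact ⟨Finset.mem_univ _, hLi⟩)
          rw [h3]
          rfl
    have h3 := col_ofFn hk c _ hN w h2
    rw [← h3]
    exact h1

/-- For all positive m, k and every non-decreasing template T in [m]^l, there are positive n, d such that every k-colouring of [m]^n has a monochromatic block set of degree d with template T. -/
theorem result :
    ∀ (m k l : ℕ), 0 < m → 0 < k →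
      ∀ T : Fin l → Fin m, Monotone T →
        ∃ n d : ℕ, 0 < n ∧ 0 < d ∧
          ∀ c : (Fin n → Fin m) → Fin k,
            ∃ I : Fin l → Finset (Fin n), ∃ a : Fin n → Fin m, ∃ col : Fin k,
              (∀ j, (I j).card = d) ∧
              (Pairwise fun j j' => Disjoint (I j) (I j')) ∧
              ∀ w : Fin n → Fin m,
                ((∀ i, (∀ j, i ∉ I j) → w i = a i) ∧
                  ∃ σ : Equiv.Perm (Fin l), ∀ j, ∀ i ∈ I j, w i = T (σ j)) →
                c w = col := by
  intro m k l hm hk T _
  rcases Nat.eq_zero_or_pos l with rfl | hl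
  · refine ⟨1, 1, one_pos, one_pos, fun c => ⟨fun _ => ∅, fun _ => ⟨0, hm⟩,
      c fun _ => ⟨0, hm⟩, fun j => j.elim0, fun j => j.elim0, ?_⟩⟩
    rintro w ⟨hw, -⟩
    congr 1
    funext i
    exact hw i fun j => j.elim0
  · exact core hm hk hl T

end Pool.Agent.S08901
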