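import Pool.Statements.S09115
import Pool.Agent.BND.FI3
-- import your own Pool.Agent.* helpers here

set_option autoImplicit false
open Pool Pool.MP_60f890_co

namespace Pool.Agent.S09115

/-- In every finite simple 3-connected graph with min degree δ at most n/2, every even-degree edge set is a mod-2 sum of cycles of length at least 2δ−1, and every cycle is the mod-2 sum of an odd number of such long cycles. -/
theorem result :
    ∀ (V : Type) [Fintype V] [DecidableEq V] (G : SimpleGraph V) [DecidableRel G.Adj],
      3 < Fintype.card V →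
      (∀ S : Finset V, S.card ≤ 2 → (G.induce ((↑S : Set V)ᶜ)).Connected) →
      2 * G.minDegree ≤ Fintype.card V →
      (∀ C : Finset (Sym2 V), (↑C : Set (Sym2 V)) ⊆ G.edgeSet →
          (∀ v : V, Even (C.filter (fun e => v ∈ e)).card) →
          ∃ F : Finset (Finset (Sym2 V)),
            (∀ D ∈ F, ∃ (u : V) (p : G.Walk u u),
              p.IsCycle ∧ p.edges.toFinset = D ∧ 2 * G.minDegree ≤ p.length + 1) ∧
            ∀ e : Sym2 V, e ∈ C ↔ Odd (F.filter (fun D => e ∈ D)).card) ∧
      (∀ (w : V) (q : G.Walk w w), q.IsCycle →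
          ∃ F : Finset (Finset (Sym2 V)),
            (∀ D ∈ F, ∃ (u : V) (p : G.Walk u u),
              p.IsCycle ∧ p.edges.toFinset = D ∧ 2 * G.minDegree ≤ p.length + 1) ∧
            Odd F.card ∧
            ∀ e : Sym2 V, e ∈ q.edges.toFinset ↔ Odd (F.filter (fun D => e ∈ D)).card) := by
  exact Pool.Agent.BND.fin_main

end Pool.Agent.S09115
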