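import Pool.Statements.S09885
import Pool.Agent.MP_867aae_co.P75.ON

set_option autoImplicit false
open Pool Pool.MP_867aae_co

namespace Pool.Agent.S09885

/-- Every family of subsets of an n-set where any two members meet in at least t points and have union of size at most n−s is no larger than some product ∣G∣·∣H∣, with G t-intersecting on q points and H s-union on n−q points. -/
theorem result :
    ∀ n t s : ℕ, ∀ F : Finset (Finset (Fin n)),
      (∀ A ∈ F, ∀ B ∈ F, t ≤ (A ∩ B).card ∧ (A ∪ B).card + s ≤ n) →
      ∃ q : ℕ, q ≤ n ∧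
        ∃ G : Finset (Finset (Fin q)),
          (∀ A ∈ G, ∀ B ∈ G, t ≤ (A ∩ B).card) ∧
          ∃ H : Finset (Finset (Fin (n - q))),
            (∀ A ∈ H, ∀ B ∈ H, (A ∪ B).card + s ≤ n - q) ∧
            F.card ≤ G.card * H.card := by
  intro n t s F hF
  exact Pool.Agent.MP_867aae_co.P75.all_parities n t s F hF

end Pool.Agent.S09885
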