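import Pool.Statements.S10331
-- import your own Pool.Agent.* helpers here
import Pool.Agent.MP_99d303_co.PathFree

set_option autoImplicit false
open Pool Pool.MP_99d303_co

namespace Pool.Agent.S10331

/-- For every ε>0 and all large t, if n ≥ εt², then any family of triples on n points contains a tight 3-edge path on 5 distinct vertices, or has a t-set spanning none of its triples; that is, r_3(P_3,K_t)=o(t^2). -/
theorem result :
    ∀ ε : ℝ, 0 < ε → ∃ T : ℕ, ∀ t : ℕ, T ≤ t → ∀ n : ℕ, ε * (t : ℝ) ^ 2 ≤ (n : ℝ) →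
      ∀ H : Finset (Finset (Fin n)),
        (∃ a b c d e : Fin n, [a, b, c, d, e].Nodup ∧
            ({a, b, c} : Finset (Fin n)) ∈ H ∧ ({b, c, d} : Finset (Fin n)) ∈ H ∧
            ({c, d, e} : Finset (Fin n)) ∈ H) ∨
        (∃ S : Finset (Fin n), S.card = t ∧
            ∀ x y z : Fin n, x ∈ S → y ∈ S → z ∈ S → x ≠ y → x ≠ z → y ≠ z →
              ({x, y, z} : Finset (Fin n)) ∉ H) := by
  intro ε hε
  obtain ⟨T, hT⟩ := Pool.Agent.MP_99d303_co.path_or_ind ε hε
  exact ⟨T, hT⟩

end Pool.Agent.S10331
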