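import Pool.Statements.S10454
import Pool.Agent.MP_9fba86_co.Graph
import Pool.Agent.MP_9fba86_co.Colour

set_option autoImplicit false
open Pool Pool.MP_9fba86_co

namespace Pool.Agent.S10454

/-- The negation of the preceding statement: Some constant d exists such that every finite 2-connected graph (connected, at least 3 vertices, no cut vertex) of odd order with minimum degree at least d has a 3-edge-colouring where each colour meets each vertex in zero or an odd number of edges. -/
theorem result :
    ¬ (∃ d : ℕ, ∀ (V : Type) [Fintype V] (G : SimpleGraph V),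
      G.Connected →
      3 ≤ Fintype.card V →
      (∀ v : V, (G.induce {w : V | w ≠ v}).Connected) →
      Odd (Fintype.card V) →
      (∀ v : V, d ≤ (G.neighborSet v).ncard) →
      ∃ c : Sym2 V → Fin 3, ∀ (v : V) (i : Fin 3),
        {w : V | G.Adj v w ∧ c s(v, w) = i}.ncard = 0 ∨
          Odd {w : V | G.Adj v w ∧ c s(v, w) = i}.ncard) := by
  rintro ⟨d, hd⟩
  have hm : 1 ≤ d + 1 := by omega
  obtain ⟨c, hc⟩ := hd (Pool.Agent.MP_9fba86_co.Vt (d + 1)) (Pool.Agent.MP_9fba86_co.tri (d + 1))
    (Pool.Agent.MP_9fba86_co.connected (d + 1) hm)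
    (by rw [Pool.Agent.MP_9fba86_co.card_Vt]; omega)
    (Pool.Agent.MP_9fba86_co.connected_remove (d + 1) hm)
    (by rw [Pool.Agent.MP_9fba86_co.card_Vt]; exact ⟨3 * (d + 1) + 1, by ring⟩)
    (fun v => le_trans (Nat.le_succ d) (Pool.Agent.MP_9fba86_co.degree_ge (d + 1) v))
  exact Pool.Agent.MP_9fba86_co.main_contra (d + 1) c hm hc

end Pool.Agent.S10454
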