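import Pool.Statements.S10712
import Pool.Agent.SNT.FinalI

set_option autoImplicit false
open Pool Pool.MP_ab1118_co

namespace Pool.Agent.S10712

/-- The negation of the preceding statement: For all n and k ≥ 1, the P-positions of the n-pile game where a move removes one token from each of exactly k nonempty piles form a finite union of sets base + ℕ-combinations of finitely many periods, i.e. a semilinear set. -/
theorem result :
    ¬ (∀ n k : ℕ, 1 ≤ k →
      ∀ P : Set (Fin n → ℕ),
        (∀ x : Fin n → ℕ, x ∈ P ↔
          ∀ S : Finset (Fin n), S.card = k → (∀ i ∈ S, 1 ≤ x i) →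
            (fun i => if i ∈ S then x i - 1 else x i) ∉ P) →
        ∃ m r : ℕ, ∃ base : Fin m → Fin n → ℕ, ∃ per : Fin m → Fin r → Fin n → ℕ,
          ∀ x : Fin n → ℕ, x ∈ P ↔
            ∃ i : Fin m, ∃ c : Fin r → ℕ, x = base i + ∑ j, c j • per i j) := by
  exact Pool.Agent.SNT.S6.final

end Pool.Agent.S10712
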