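import Pool.Statements.S11033
import Pool.Agent.MP_b9302b_co.Final
-- import your own Pool.Agent.* helpers here

set_option autoImplicit false
open Pool Pool.MP_b9302b_co

namespace Pool.Agent.S11033

/-- There is a bound N such that every finite abelian group of odd order 2n+1 > N has n pairs partitioning the nonzero elements, with all ± differences distinct, plus n distinct nonzero shifts a_i making the shifted pairs again partition the nonzero elements. -/
theorem result :
    ∃ N : ℕ, ∀ (G : Type) [AddCommGroup G] [Fintype G],
      Odd (Fintype.card G) → N < Fintype.card G →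
      ∃ (x y a : Fin ((Fintype.card G - 1) / 2) → G),
        Function.Injective (Sum.elim x y) ∧
        (∀ i, x i ≠ 0 ∧ y i ≠ 0) ∧
        Function.Injective (Sum.elim (fun i => x i - y i) (fun i => y i - x i)) ∧
        Function.Injective a ∧
        (∀ i, a i ≠ 0) ∧
        Function.Injective (Sum.elim (fun i => x i + a i) (fun i => y i + a i)) ∧
        (∀ i, x i + a i ≠ 0 ∧ y i + a i ≠ 0) := by
  refine ⟨9, fun G _ _ hodd h9 => ?_⟩
  exact Pool.Agent.StarterAdder.exists_starter G hodd
    (Pool.Agent.StarterAdder.good_or_small G hodd h9)

end Pool.Agent.S11033
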