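import Pool.Statements.S11108

set_option autoImplicit false
open Pool Pool.MP_bc6ab1_co

namespace Pool.Agent.S11108

instance fact7 : Fact (Nat.Prime 7) := ⟨by norm_num⟩

/-- The uniform matroid of rank 3 on six elements. -/
def U36 : Matroid (Fin 6) :=
  (IndepMatroid.ofFinite (E := Set.univ) Set.finite_univ (fun I : Set (Fin 6) => I.ncard ≤ 3)
    (by simp)
    (by
      intro I J hJ hIJ
      exact (Set.ncard_le_ncard hIJ (Set.toFinite J)).trans hJ)
    (by
      intro I J hI hJ hlt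
      obtain ⟨e, heJ, heI⟩ := Set.exists_mem_notMem_of_ncard_lt_ncard hlt
      refine ⟨e, heJ, heI, ?_⟩
      have := Set.ncard_insert_le e I
      omega)
    (by intro I _; exact Set.subset_univ I)).matroid

theorem U36_indep (I : Set (Fin 6)) : U36.Indep I ↔ I.ncard ≤ 3 := by
  simp [U36]

theorem U36_E : U36.E = Set.univ := rfl

theorem indep_iff (φ : Fin 6 → (Fin 3 → ZMod 7))
    (hφ : ∀ i j k : Fin 6, i ≠ j → i ≠ k → j ≠ k →
      (Matrix.of ![φ i, φ j, φ k]).det ≠ 0) (I : Set (Fin 6)) :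
    U36.Indep I ↔ LinearIndepOn (ZMod 7) φ I := by
  rw [U36_indep]
  constructor
  · intro hI
    obtain ⟨J, hIJ, -, hJ⟩ := Set.exists_subsuperset_card_eq (s := I) (t := Set.univ)
      (Set.subset_univ I) hI (by simp [Set.ncard_univ])
    obtain ⟨i, j, k, hij, hik, hjk, rfl⟩ := Set.ncard_eq_three.mp hJ
    refine LinearIndepOn.mono ?_ hIJ
    have hinj : Function.Injective ![i, j, k] := by
      intro a b hab
      fin_cases a <;> fin_cases b <;> simp_all
    have hr : ({i, j, k} : Set (Fin 6)) = Set.range ![i, j, k] := by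
      ext x
      simp only [Set.mem_insert_iff, Set.mem_singleton_iff, Set.mem_range, Fin.exists_fin_succ,
        Fin.exists_fin_zero]
      simp [eq_comm]
    rw [hr, linearIndepOn_range_iff hinj]
    have h1 := Matrix.linearIndependent_rows_of_det_ne_zero (hφ i j k hij hik hjk)
    have e : (fun a => Matrix.of ![φ i, φ j, φ k] a) = φ ∘ ![i, j, k] := by
      funext a
      fin_cases a <;> rfl
    have h2 : LinearIndependent (ZMod 7) (fun a => Matrix.of ![φ i, φ j, φ k] a) := h1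
    rw [e] at h2
    exact h2
  · intro h
    classical
    have h1 := h.linearIndependent
    have h2 := LinearIndependent.fintype_card_le_finrank h1
    rw [Module.finrank_fin_fun] at h2
    rw [← Nat.card_coe_set_eq, Nat.card_eq_fintype_card]
    exact h2

/-- determinant of three vectors, as an alternating form in the last two arguments -/
theorem expand (L : (Fin 3 → ZMod 7) [⋀^Fin 2]→ₗ[ZMod 7] ZMod 7) (x y : Fin 3 → ZMod 7) :
    L ![x, y] = ∑ i, ∑ j, x i * (y j * L ![Pi.single i 1, Pi.single j 1]) := by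
  have h1 : ∀ y : Fin 3 → ZMod 7, L ![x, y] = ∑ i, x i * L ![Pi.single i 1, y] := by
    intro y
    have hx : x = ∑ i, x i • (Pi.single i (1 : ZMod 7) : Fin 3 → ZMod 7) := pi_eq_sum_univ' x
    have key : ∀ z : Fin 3 → ZMod 7, L ![z, y] = (L.toMultilinearMap.toLinearMap ![0, y] 0) z := by
      intro z
      simp only [MultilinearMap.toLinearMap_apply]
      have : Function.update (![0, y] : Fin 2 → Fin 3 → ZMod 7) 0 z = ![z, y] := by
        funext a
        fin_cases a <;> simp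
      rw [this]
      rfl
    rw [key x]
    conv_lhs => rw [hx]
    rw [map_sum]
    refine Finset.sum_congr rfl fun i _ => ?_
    rw [map_smul, key, smul_eq_mul]
  have h2 : ∀ x : Fin 3 → ZMod 7, L ![x, y] = ∑ j, y j * L ![x, Pi.single j 1] := by
    intro x
    have hy : y = ∑ i, y i • (Pi.single i (1 : ZMod 7) : Fin 3 → ZMod 7) := pi_eq_sum_univ' y
    have key : ∀ z : Fin 3 → ZMod 7, L ![x, z] = (L.toMultilinearMap.toLinearMap ![x, 0] 1) z := by
      intro z
      simp only [MultilinearMap.toLinearMap_apply]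
      have : Function.update (![x, 0] : Fin 2 → Fin 3 → ZMod 7) 1 z = ![x, z] := by
        funext a
        fin_cases a <;> simp
      rw [this]
      rfl
    rw [key y]
    conv_lhs => rw [hy]
    rw [map_sum]
    refine Finset.sum_congr rfl fun i _ => ?_
    rw [map_smul, key, smul_eq_mul]
  rw [h1]
  refine Finset.sum_congr rfl fun i _ => ?_
  rw [h2, Finset.mul_sum]

theorem swap_eq (L : (Fin 3 → ZMod 7) [⋀^Fin 2]→ₗ[ZMod 7] ZMod 7) (x y : Fin 3 → ZMod 7) :
    L ![y, x] = - L ![x, y] := by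
  have h := L.map_swap ![x, y] (i := 0) (j := 1) (by decide)
  rw [← h]
  congr 1
  funext a
  fin_cases a <;> simp

theorem expand' (L : (Fin 3 → ZMod 7) [⋀^Fin 2]→ₗ[ZMod 7] ZMod 7) :
    ∃ a b c : ZMod 7, ∀ x y : Fin 3 → ZMod 7,
      L ![x, y] = a * (x 0 * y 1 - x 1 * y 0) + b * (x 0 * y 2 - x 2 * y 0)
        + c * (x 1 * y 2 - x 2 * y 1) := by
  refine ⟨L ![Pi.single 0 1, Pi.single 1 1], L ![Pi.single 0 1, Pi.single 2 1],
    L ![Pi.single 1 1, Pi.single 2 1], fun x y => ?_⟩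
  have h0 : ∀ z : Fin 3 → ZMod 7, L ![z, z] = 0 := by
    intro z
    exact L.map_eq_zero_of_eq ![z, z] (i := 0) (j := 1) (by simp) (by decide)
  rw [expand]
  simp only [Fin.sum_univ_three, h0]
  rw [swap_eq L (Pi.single 0 1) (Pi.single 1 1), swap_eq L (Pi.single 0 1) (Pi.single 2 1),
    swap_eq L (Pi.single 1 1) (Pi.single 2 1)]
  ring

/-- Points of a conic. -/
def φ₁ : Fin 6 → (Fin 3 → ZMod 7) :=
  ![![1, 0, 0], ![1, 1, 1], ![1, 2, 4], ![1, 3, 2], ![1, 4, 2], ![1, 5, 4]]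

/-- A complete arc. -/
def φ₂ : Fin 6 → (Fin 3 → ZMod 7) :=
  ![![1, 0, 0], ![0, 1, 0], ![0, 0, 1], ![1, 1, 1], ![1, 2, 3], ![1, 3, 4]]

theorem h₁ : ∀ i j k : Fin 6, i ≠ j → i ≠ k → j ≠ k →
      (Matrix.of ![φ₁ i, φ₁ j, φ₁ k]).det ≠ 0 := by
  simp only [Matrix.det_fin_three]
  decide +kernel

theorem h₂ : ∀ i j k : Fin 6, i ≠ j → i ≠ k → j ≠ k →
      (Matrix.of ![φ₂ i, φ₂ j, φ₂ k]).det ≠ 0 := by
  simp only [Matrix.det_fin_three]
  decide +kernel

theorem cover : ∀ a b c : ZMod 7, ∃ i j : Fin 6, i ≠ j ∧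
    a * (φ₂ i 0 * φ₂ j 1 - φ₂ i 1 * φ₂ j 0) + b * (φ₂ i 0 * φ₂ j 2 - φ₂ i 2 * φ₂ j 0)
        + c * (φ₂ i 1 * φ₂ j 2 - φ₂ i 2 * φ₂ j 1) = 0 := by
  decide +kernel

theorem avoid : ∀ i j : Fin 6, i ≠ j →
    (Matrix.of ![![0, 0, 1], φ₁ i, φ₁ j]).det ≠ 0 := by
  simp only [Matrix.det_fin_three]
  decide +kernel

/-- The alternating form `(x, y) ↦ det (p, x, y)` with `p = (0, 0, 1)`. -/
noncomputable def L₁ : (Fin 3 → ZMod 7) [⋀^Fin 2]→ₗ[ZMod 7] ZMod 7 :=
  (Matrix.detRowAlternating (R := ZMod 7) (n := Fin 3)).curryLeft ![0, 0, 1]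

theorem L₁_apply (x y : Fin 3 → ZMod 7) :
    L₁ ![x, y] = (Matrix.of ![![0, 0, 1], x, y]).det := by
  unfold L₁
  rw [AlternatingMap.curryLeft_apply_apply]
  rfl

theorem pair_inj {a b : Fin 6} (hab : a ≠ b) : Function.Injective ![a, b] := by
  intro x y hxy
  fin_cases x <;> fin_cases y <;> simp_all

theorem pair_range (a b : Fin 6) : Set.range ![a, b] = ({a, b} : Set (Fin 6)) := by
  ext x
  simp only [Set.mem_range, Fin.exists_fin_two, Set.mem_insert_iff, Set.mem_singleton_iff]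
  simp only [Matrix.cons_val_zero, Matrix.cons_val_one, eq_comm (a := x)]

theorem comp_pair (φ : Fin 6 → (Fin 3 → ZMod 7)) (a b : Fin 6) :
    φ ∘ ![a, b] = ![φ a, φ b] := by
  funext x
  fin_cases x <;> rfl

theorem pair_eq {a b : Fin 6} (e : Fin 2 → Fin 6) (he : Function.Injective e)
    (hr : Set.range e ⊆ {a, b}) : e = ![a, b] ∨ e = ![b, a] := by
  have h0 : e 0 ∈ ({a, b} : Set (Fin 6)) := hr ⟨0, rfl⟩
  have h1 : e 1 ∈ ({a, b} : Set (Fin 6)) := hr ⟨1, rfl⟩
  have h01 : e 0 ≠ e 1 := fun h => by simpa using he h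
  simp only [Set.mem_insert_iff, Set.mem_singleton_iff] at h0 h1
  rcases h0 with h0 | h0 <;> rcases h1 with h1 | h1
  · exact absurd (h0.trans h1.symm) h01
  · left; funext x; fin_cases x <;> simp [h0, h1]
  · right; funext x; fin_cases x <;> simp [h0, h1]
  · exact absurd (h0.trans h1.symm) h01

theorem isFlat_pair {a b : Fin 6} (hab : a ≠ b) : U36.IsFlat ({a, b} : Set (Fin 6)) := by
  rw [Matroid.isFlat_iff_closure_eq]
  apply Set.Subset.antisymm
  · intro x hx
    by_contra hxn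
    have hI : U36.Indep ({a, b} : Set (Fin 6)) := by
      rw [U36_indep, Set.ncard_pair hab]
      norm_num
    have hd := (hI.mem_closure_iff_of_notMem hxn).mp hx
    rw [Matroid.Dep, U36_indep] at hd
    have hc : (insert x ({a, b} : Set (Fin 6))).ncard ≤ 3 := by
      refine (Set.ncard_insert_le _ _).trans ?_
      rw [Set.ncard_pair hab]
    exact hd.1 hc
  · exact U36.subset_closure _ (by rw [U36_E]; exact Set.subset_univ _)

theorem eRk_pair {a b : Fin 6} (hab : a ≠ b) :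
    U36.eRk ({a, b} : Set (Fin 6)) = ((2 : ℕ) : ℕ∞) := by
  have hI : U36.Indep ({a, b} : Set (Fin 6)) := by
    rw [U36_indep, Set.ncard_pair hab]
    norm_num
  rw [hI.eRk_eq_encard, Set.encard_pair hab]
  rfl

/-- The negation of the preceding statement: For any loopless matroid with two linear representations over the same finite field and any k ≥ 2, for every c, c alternating k-forms separating all rank-k flats exist for one representation iff they exist for the other. -/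
theorem result :
    ¬ (∀ (F : Type) [Field F] [Fintype F] (n : ℕ) (M : Matroid (Fin n)),
      M.E = Set.univ → M.Loopless →
      ∀ (k : ℕ), 2 ≤ k →
      ∀ (d₁ d₂ : ℕ) (φ₁ : Fin n → (Fin d₁ → F)) (φ₂ : Fin n → (Fin d₂ → F)),
        (∀ I : Set (Fin n), M.Indep I ↔ LinearIndepOn F φ₁ I) →
        (∀ I : Set (Fin n), M.Indep I ↔ LinearIndepOn F φ₂ I) →
        ∀ c : ℕ,
          (∃ L : Fin c → ((Fin d₁ → F) [⋀^Fin k]→ₗ[F] F),
              ∀ X : Set (Fin n), M.IsFlat X → M.eRk X = (k : ℕ∞) →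
                ∃ i : Fin c, ∃ e : Fin k → Fin n,
                  Function.Injective e ∧ M.IsBasis (Set.range e) X ∧ L i (φ₁ ∘ e) ≠ 0) ↔
          (∃ L : Fin c → ((Fin d₂ → F) [⋀^Fin k]→ₗ[F] F),
              ∀ X : Set (Fin n), M.IsFlat X → M.eRk X = (k : ℕ∞) →
                ∃ i : Fin c, ∃ e : Fin k → Fin n,
                  Function.Injective e ∧ M.IsBasis (Set.range e) X ∧ L i (φ₂ ∘ e) ≠ 0)) := by
  intro H
  have hloop : U36.Loopless := by
    rw [Matroid.loopless_iff_forall_isNonloop]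
    intro e _
    rw [← Matroid.indep_singleton, U36_indep]
    simp
  have h := (H (ZMod 7) 6 U36 U36_E hloop 2 le_rfl 3 3 φ₁ φ₂ (indep_iff φ₁ h₁)
    (indep_iff φ₂ h₂) 1).mp
  have hex : (∃ L : Fin 1 → ((Fin 3 → ZMod 7) [⋀^Fin 2]→ₗ[ZMod 7] ZMod 7),
              ∀ X : Set (Fin 6), U36.IsFlat X → U36.eRk X = ((2 : ℕ) : ℕ∞) →
                ∃ i : Fin 1, ∃ e : Fin 2 → Fin 6,
                  Function.Injective e ∧ U36.IsBasis (Set.range e) X ∧ L i (φ₁ ∘ e) ≠ 0) := by
    refine ⟨fun _ => L₁, fun X _ hr => ?_⟩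
    obtain ⟨I, hI⟩ := U36.exists_isBasis X (by rw [U36_E]; exact Set.subset_univ _)
    have hc : I.encard = 2 := by
      rw [hI.encard_eq_eRk, hr]
      rfl
    obtain ⟨a, b, hab, rfl⟩ := Set.encard_eq_two.mp hc
    refine ⟨0, ![a, b], pair_inj hab, ?_, ?_⟩
    · rw [pair_range]; exact hI
    · rw [comp_pair, L₁_apply]
      exact avoid a b hab
  obtain ⟨L, hL⟩ := h hex
  obtain ⟨p, q, r, hpqr⟩ := expand' (L 0)
  obtain ⟨i, j, hij, h0⟩ := cover p q r
  obtain ⟨t, e, he, hb, hne⟩ := hL {i, j} (isFlat_pair hij) (eRk_pair hij)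
  have ht : t = 0 := Subsingleton.elim _ _
  subst ht
  apply hne
  have hz : L 0 ![φ₂ i, φ₂ j] = 0 := by rw [hpqr]; exact h0
  rcases pair_eq e he hb.subset with rfl | rfl
  · rw [comp_pair]
    exact hz
  · rw [comp_pair, swap_eq, hz, neg_zero]

end Pool.Agent.S11108
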