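import Pool.Statements.S11589
import Pool.Agent.MP_d13902_co.Low5
import Pool.Agent.MP_d13902_co.Chrom
import Pool.Agent.MP_d13902_co_B.A5

set_option autoImplicit false
open scoped Classical
open Pool Pool.MP_d13902_co

namespace Pool.Agent.S11589

/-- For every ε>0, the fraction of graphs on n labeled vertices whose real minrank lies between (1−ε) and (1+ε) times the chromatic number of the complement tends to 1 as n grows. -/
theorem result :
  ∀ ε : ℝ, 0 < ε →
    Filter.Tendsto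
      (fun n : ℕ =>
        ((Finset.univ.filter (fun G : SimpleGraph (Fin n) =>
            (1 - ε) * ((Gᶜ.chromaticNumber.toNat : ℕ) : ℝ) ≤
              ((sInf {r : ℕ | ∃ M : Matrix (Fin n) (Fin n) ℝ,
                  (∀ i, M i i ≠ 0) ∧
                  (∀ i j, i ≠ j → ¬ G.Adj i j → M i j = 0) ∧
                  M.rank = r} : ℕ) : ℝ) ∧
            ((sInf {r : ℕ | ∃ M : Matrix (Fin n) (Fin n) ℝ,
                  (∀ i, M i i ≠ 0) ∧
                  (∀ i j, i ≠ j → ¬ G.Adj i j → M i j = 0) ∧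
                  M.rank = r} : ℕ) : ℝ) ≤
              (1 + ε) * ((Gᶜ.chromaticNumber.toNat : ℕ) : ℝ))).card : ℝ) /
          (Fintype.card (SimpleGraph (Fin n)) : ℝ))
      Filter.atTop (nhds 1) := by
  intro ε hε
  -- parameters
  set δ : ℝ := min (ε / 4) (1 / 4) with hδ
  have hδ0 : 0 < δ := by rw [hδ]; positivity
  have hδε : δ ≤ ε / 4 := min_le_left _ _
  have hδ1 : δ ≤ 1 / 4 := min_le_right _ _
  have hlow := Pool.Agent.MP_d13902_co.minrank_lower' δ hδ0
  have hup := Pool.Agent.MP_d13902_co_B.chromatic_upper δ hδ0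
  -- complement fractions
  let p : (n : ℕ) → SimpleGraph (Fin n) → Prop := fun n G =>
    (1 - δ) * (n / (2 * Real.logb 2 n)) ≤ (Pool.Agent.MP_d13902_co.minrank G : ℝ)
  let q : (n : ℕ) → SimpleGraph (Fin n) → Prop := fun n G =>
    ((Gᶜ.chromaticNumber.toNat : ℕ) : ℝ) ≤ (1 + δ) * (n / (2 * Real.logb 2 n))
  have hp : Filter.Tendsto (fun n : ℕ => 1 - ((Finset.univ.filter (p n)).card : ℝ) /
      (Fintype.card (SimpleGraph (Fin n)) : ℝ)) Filter.atTop (nhds 0) := by
    have := hlow.const_sub 1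
    simpa using this
  have hq : Filter.Tendsto (fun n : ℕ => 1 - ((Finset.univ.filter (q n)).card : ℝ) /
      (Fintype.card (SimpleGraph (Fin n)) : ℝ)) Filter.atTop (nhds 0) := by
    have := hup.const_sub 1
    simpa using this
  have hpq := hp.add hq
  rw [add_zero] at hpq
  suffices hmain : ∀ᶠ n : ℕ in Filter.atTop, ((Finset.univ.filter (fun G : SimpleGraph (Fin n) =>
      ¬ ((1 - ε) * ((Gᶜ.chromaticNumber.toNat : ℕ) : ℝ) ≤
        (Pool.Agent.MP_d13902_co.minrank G : ℝ) ∧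
      (Pool.Agent.MP_d13902_co.minrank G : ℝ) ≤
        (1 + ε) * ((Gᶜ.chromaticNumber.toNat : ℕ) : ℝ)))).card : ℝ) ≤
      (1 - ((Finset.univ.filter (p n)).card : ℝ) / (Fintype.card (SimpleGraph (Fin n)) : ℝ) +
      (1 - ((Finset.univ.filter (q n)).card : ℝ) / (Fintype.card (SimpleGraph (Fin n)) : ℝ))) *
      (Fintype.card (SimpleGraph (Fin n)) : ℝ) by
    have key := Pool.Agent.MP_d13902_co.tendsto_frac (p := fun n G =>
      (1 - ε) * ((Gᶜ.chromaticNumber.toNat : ℕ) : ℝ) ≤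
        (Pool.Agent.MP_d13902_co.minrank G : ℝ) ∧
      (Pool.Agent.MP_d13902_co.minrank G : ℝ) ≤
        (1 + ε) * ((Gᶜ.chromaticNumber.toNat : ℕ) : ℝ)) hpq
        (hmain.mono (fun n h => by convert h))
    refine key.congr (fun n => ?_)
    congr!
  filter_upwards [Filter.eventually_ge_atTop 1] with n hn
  have hc0 : (0 : ℝ) < (Fintype.card (SimpleGraph (Fin n)) : ℝ) := by
    exact_mod_cast Fintype.card_pos
  have e1 := Pool.Agent.MP_d13902_co.card_compl_frac (p n)
  have e2 := Pool.Agent.MP_d13902_co.card_compl_frac (q n)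
  have e3 : (1 - ((Finset.univ.filter (p n)).card : ℝ) / (Fintype.card (SimpleGraph (Fin n)) : ℝ) +
      (1 - ((Finset.univ.filter (q n)).card : ℝ) / (Fintype.card (SimpleGraph (Fin n)) : ℝ))) *
      (Fintype.card (SimpleGraph (Fin n)) : ℝ) =
      ((Finset.univ.filter (fun G => ¬ p n G)).card : ℝ) +
        ((Finset.univ.filter (fun G => ¬ q n G)).card : ℝ) := by
    rw [e1, e2]
    field_simp
    ring
  rw [e3]
  have hsub : (Finset.univ.filter (fun G : SimpleGraph (Fin n) =>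
      ¬ ((1 - ε) * ((Gᶜ.chromaticNumber.toNat : ℕ) : ℝ) ≤
        (Pool.Agent.MP_d13902_co.minrank G : ℝ) ∧
      (Pool.Agent.MP_d13902_co.minrank G : ℝ) ≤
        (1 + ε) * ((Gᶜ.chromaticNumber.toNat : ℕ) : ℝ)))) ⊆
      Finset.univ.filter (fun G => ¬ p n G) ∪ Finset.univ.filter (fun G => ¬ q n G) := by
    intro G hG
    rw [Finset.mem_filter] at hG
    rw [Finset.mem_union, Finset.mem_filter, Finset.mem_filter]
    by_contra hcon
    rw [not_or] at hcon
    have h1 : p n G := by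
      by_contra h
      exact hcon.1 ⟨Finset.mem_univ _, h⟩
    have h2 : q n G := by
      by_contra h
      exact hcon.2 ⟨Finset.mem_univ _, h⟩
    apply hG.2
    have h3 : (Pool.Agent.MP_d13902_co.minrank G : ℝ) ≤
        ((Gᶜ.chromaticNumber.toNat : ℕ) : ℝ) := by
      exact_mod_cast Pool.Agent.MP_d13902_co.minrank_le_chromatic G
    have hχ : (0 : ℝ) ≤ ((Gᶜ.chromaticNumber.toNat : ℕ) : ℝ) := Nat.cast_nonneg _
    refine ⟨?_, by nlinarith⟩
    have h4 : (1 - δ) * ((n : ℝ) / (2 * Real.logb 2 n)) ≤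
        (Pool.Agent.MP_d13902_co.minrank G : ℝ) := h1
    have h5 : ((Gᶜ.chromaticNumber.toNat : ℕ) : ℝ) ≤
        (1 + δ) * ((n : ℝ) / (2 * Real.logb 2 n)) := h2
    have hx : 0 ≤ (n : ℝ) / (2 * Real.logb 2 n) := by
      apply div_nonneg (Nat.cast_nonneg _)
      have : 0 ≤ Real.logb 2 n := Real.logb_nonneg (by norm_num) (by exact_mod_cast hn)
      linarith
    have h6 : (1 - ε) * (1 + δ) ≤ 1 - δ := by nlinarith
    by_cases hε1 : ε ≤ 1
    · calc (1 - ε) * ((Gᶜ.chromaticNumber.toNat : ℕ) : ℝ)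
          ≤ (1 - ε) * ((1 + δ) * ((n : ℝ) / (2 * Real.logb 2 n))) :=
            mul_le_mul_of_nonneg_left h5 (by linarith)
        _ = ((1 - ε) * (1 + δ)) * ((n : ℝ) / (2 * Real.logb 2 n)) := by ring
        _ ≤ (1 - δ) * ((n : ℝ) / (2 * Real.logb 2 n)) := mul_le_mul_of_nonneg_right h6 hx
        _ ≤ _ := h4
    · have : (1 - ε) * ((Gᶜ.chromaticNumber.toNat : ℕ) : ℝ) ≤ 0 :=
        mul_nonpos_of_nonpos_of_nonneg (by linarith) hχ
      exact this.trans (Nat.cast_nonneg _)
  have := (Finset.card_le_card hsub).trans (Finset.card_union_le _ _)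
  exact_mod_cast this

end Pool.Agent.S11589
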