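import Pool.Statements.S11816

set_option autoImplicit false
open Pool Pool.MP_daf6f7_co

namespace Pool.Agent.S11816

/-- The twenty edges of the Groetzsch graph (the Mycielskian of the 5-cycle): `0..4` is the
cycle, `5..9` are the twins, `10` is the apex. -/
def ed : Fin 20 → Fin 11 × Fin 11 :=
  ![(0, 1), (1, 2), (2, 3), (3, 4), (0, 4), (1, 5), (4, 5), (2, 6), (0, 6), (3, 7), (1, 7),
    (4, 8), (2, 8), (0, 9), (3, 9), (5, 10), (6, 10), (7, 10), (8, 10), (9, 10)]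

/-- The dual hypergraph: hyperedge `i` is the set of graph edges at the graph vertex `i`. -/
def E (i : Fin 11) : Finset (Fin 20) :=
  Finset.univ.filter (fun v => (ed v).1 = i ∨ (ed v).2 = i)

/-- For each graph vertex `v`, a proper 3-colouring of the graph minus `v`. -/
def col : Fin 11 → Fin 11 → Fin 3 :=
  ![![0, 0, 1, 0, 1, 2, 0, 2, 0, 2, 1],
    ![0, 0, 0, 1, 2, 1, 1, 2, 1, 2, 0],
    ![0, 1, 0, 0, 1, 0, 2, 2, 0, 2, 1],
    ![0, 1, 0, 0, 1, 0, 2, 0, 2, 2, 1],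
    ![0, 1, 0, 1, 0, 0, 2, 0, 2, 2, 1],
    ![0, 1, 0, 1, 2, 0, 1, 2, 1, 2, 0],
    ![0, 1, 2, 0, 1, 0, 0, 2, 0, 2, 1],
    ![0, 1, 0, 2, 1, 2, 1, 0, 2, 1, 0],
    ![0, 1, 0, 1, 2, 0, 2, 0, 0, 2, 1],
    ![0, 1, 0, 1, 2, 0, 1, 0, 1, 0, 2],
    ![0, 1, 0, 1, 2, 0, 1, 0, 1, 2, 0]]

theorem mem_E (i : Fin 11) (v : Fin 20) : v ∈ E i ↔ ((ed v).1 = i ∨ (ed v).2 = i) := by
  simp [E]

theorem ed_ne : ∀ t : Fin 20, (ed t).1 ≠ (ed t).2 := by
  decide

/-- two different hyperedges that meet come from a graph edge -/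
theorem disj_of {i j : Fin 11} (hij : i ≠ j)
    (h : ∀ v, ¬ (((ed v).1 = i ∧ (ed v).2 = j) ∨ ((ed v).1 = j ∧ (ed v).2 = i))) :
    Disjoint (E i) (E j) := by
  rw [Finset.disjoint_left]
  intro v hi hj
  rw [mem_E] at hi hj
  rcases hi with hi | hi <;> rcases hj with hj | hj
  · exact hij (hi.symm.trans hj)
  · exact h v (Or.inl ⟨hi, hj⟩)
  · exact h v (Or.inr ⟨hj, hi⟩)
  · exact hij (hi.symm.trans hj)

theorem col_ok : ∀ v : Fin 11, ∀ t : Fin 20, (ed t).1 ≠ v → (ed t).2 ≠ v →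
    col v (ed t).1 ≠ col v (ed t).2 := by
  decide

theorem col_disj (v i j : Fin 11) (hi : i ≠ v) (hj : j ≠ v) (hij : i ≠ j)
    (h : col v i = col v j) : Disjoint (E i) (E j) := by
  refine disj_of hij ?_
  rintro t (⟨h1, h2⟩ | ⟨h1, h2⟩)
  · exact col_ok v t (h1 ▸ hi) (h2 ▸ hj) (by rw [h1, h2, h])
  · exact col_ok v t (h1 ▸ hj) (h2 ▸ hi) (by rw [h1, h2, h])

theorem no_col5 : ∀ x0 x1 x2 x3 x4 y : Fin 3, x0 ≠ x1 → x1 ≠ x2 → x2 ≠ x3 → x3 ≠ x4 →
    x0 ≠ x4 → (x1 ≠ x4 ∧ x1 ≠ y ∧ x4 ≠ y) ∨ (x2 ≠ x0 ∧ x2 ≠ y ∧ x0 ≠ y) ∨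
      (x3 ≠ x1 ∧ x3 ≠ y ∧ x1 ≠ y) ∨ (x4 ≠ x2 ∧ x4 ≠ y ∧ x2 ≠ y) ∨
      (x0 ≠ x3 ∧ x0 ≠ y ∧ x3 ≠ y) := by
  decide

theorem four_in_three : ∀ a b y u : Fin 3, (a ≠ b ∧ a ≠ y ∧ b ≠ y) ∧ a ≠ u ∧ b ≠ u →
    u = y := by
  decide

theorem no_col (k : ℕ) (hk : k = 2) (c : Fin 11 → Fin (k + 1))
    (hc : ∀ i j, i ≠ j → c i = c j → Disjoint (E i) (E j)) : False := by
  subst hk
  have key : ∀ t : Fin 20, c (ed t).1 ≠ c (ed t).2 := by
    intro t h
    have hne : (ed t).1 ≠ (ed t).2 := ed_ne t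
    have hd := hc _ _ hne h
    rw [Finset.disjoint_left] at hd
    exact hd ((mem_E _ t).2 (Or.inl rfl)) ((mem_E _ t).2 (Or.inr rfl))
  rcases no_col5 (c 0) (c 1) (c 2) (c 3) (c 4) (c 10) (key 0) (key 1) (key 2) (key 3) (key 4)
    with ⟨h1, h2, h3⟩ | ⟨h1, h2, h3⟩ | ⟨h1, h2, h3⟩ | ⟨h1, h2, h3⟩ | ⟨h1, h2, h3⟩
  · exact key 15 (four_in_three _ _ _ (c 5) ⟨⟨h1, h2, h3⟩, key 5, key 6⟩)
  · exact key 16 (four_in_three _ _ _ (c 6) ⟨⟨h1, h2, h3⟩, key 7, key 8⟩)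
  · exact key 17 (four_in_three _ _ _ (c 7) ⟨⟨h1, h2, h3⟩, key 9, key 10⟩)
  · exact key 18 (four_in_three _ _ _ (c 8) ⟨⟨h1, h2, h3⟩, key 11, key 12⟩)
  · exact key 19 (four_in_three _ _ _ (c 9) ⟨⟨h1, h2, h3⟩, key 13, key 14⟩)

theorem sup_eq : Finset.univ.sup
    (fun v : Fin 20 => (Finset.univ.filter (fun i : Fin 11 => v ∈ E i)).card) = 2 := by
  have h : ∀ v : Fin 20, (Finset.univ.filter (fun i : Fin 11 => v ∈ E i)).card = 2 := by
    simp only [mem_E]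
    decide
  apply le_antisymm
  · exact Finset.sup_le fun v _ => (h v).le
  · exact (h 0).ge.trans (Finset.le_sup (f := fun v : Fin 20 =>
      (Finset.univ.filter (fun i : Fin 11 => v ∈ E i)).card) (Finset.mem_univ 0))

theorem E_nonempty (i : Fin 11) : (E i).Nonempty := by
  have h : ∀ i : Fin 11, ∃ v : Fin 20, ((ed v).1 = i ∨ (ed v).2 = i) := by decide
  obtain ⟨v, hv⟩ := h i
  exact ⟨v, (mem_E i v).2 hv⟩

theorem hyp (S : Finset (Fin 11)) : ∃ M ⊆ S,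
    (∀ i ∈ M, ∀ j ∈ M, i ≠ j → Disjoint (E i) (E j)) ∧
    S.card ≤ M.card *
      (Finset.univ.sup (fun v : Fin 20 => (S.filter (fun i => v ∈ E i)).card) + 1) := by
  by_cases hpd : ∀ i ∈ S, ∀ j ∈ S, i ≠ j → Disjoint (E i) (E j)
  · exact ⟨S, subset_rfl, hpd, Nat.le_mul_of_pos_right _ (Nat.succ_pos _)⟩
  · push Not at hpd
    obtain ⟨i, hi, j, hj, hij, hd⟩ := hpd
    have h2 : 2 ≤ Finset.univ.sup (fun v : Fin 20 => (S.filter (fun i => v ∈ E i)).card) := by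
      rw [Finset.not_disjoint_iff] at hd
      obtain ⟨v, hvi, hvj⟩ := hd
      refine le_trans ?_ (Finset.le_sup (f := fun v : Fin 20 =>
        (S.filter (fun i => v ∈ E i)).card) (Finset.mem_univ v))
      have hsub : ({i, j} : Finset (Fin 11)) ⊆ S.filter (fun i => v ∈ E i) := by
        intro x hx
        rw [Finset.mem_insert, Finset.mem_singleton] at hx
        rcases hx with rfl | rfl
        · exact Finset.mem_filter.2 ⟨hi, hvi⟩
        · exact Finset.mem_filter.2 ⟨hj, hvj⟩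
      calc 2 = ({i, j} : Finset (Fin 11)).card := (Finset.card_pair hij).symm
        _ ≤ _ := Finset.card_le_card hsub
    by_cases huniv : S = Finset.univ
    · subst huniv
      refine ⟨{5, 6, 7, 8, 9}, Finset.subset_univ _, ?_, ?_⟩
      · intro i hi j hj hij
        refine disj_of hij ?_
        revert i j
        decide
      · have h5 : ({5, 6, 7, 8, 9} : Finset (Fin 11)).card = 5 := by decide
        have h11 : (Finset.univ : Finset (Fin 11)).card = 11 := by decide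
        rw [h5, h11]
        omega
    · obtain ⟨v, hv⟩ : ∃ v, v ∉ S := by
        by_contra hcon
        push Not at hcon
        exact huniv (Finset.eq_univ_iff_forall.2 hcon)
      obtain ⟨c, hc⟩ : ∃ c : Fin 3, S.card ≤ (S.filter (fun i => col v i = c)).card * 3 := by
        by_contra hcon
        push Not at hcon
        have hs : S.card = ∑ c : Fin 3, (S.filter (fun i => col v i = c)).card :=
          Finset.card_eq_sum_card_fiberwise (fun _ _ => Finset.mem_coe.2 (Finset.mem_univ _))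
        rw [Fin.sum_univ_three] at hs
        have h0 := hcon 0
        have h1 := hcon 1
        have h2 := hcon 2
        omega
      refine ⟨S.filter (fun i => col v i = c), Finset.filter_subset _ _, ?_, ?_⟩
      · intro i hi j hj hij
        rw [Finset.mem_filter] at hi hj
        exact col_disj v i j (fun h => hv (h ▸ hi.1)) (fun h => hv (h ▸ hj.1)) hij
          (hi.2.trans hj.2.symm)
      · refine hc.trans (Nat.mul_le_mul_left _ ?_)
        omega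

theorem result :
    ¬ (∀ (V : Type) [Fintype V] [DecidableEq V] (m : ℕ) (e : Fin m → Finset V),
    (∀ i, (e i).Nonempty) →
    (∀ S : Finset (Fin m), ∃ M ⊆ S,
        (∀ i ∈ M, ∀ j ∈ M, i ≠ j → Disjoint (e i) (e j)) ∧
        S.card ≤ M.card *
          (Finset.univ.sup (fun v : V => (S.filter (fun i => v ∈ e i)).card) + 1)) →
    ∃ c : Fin m → Fin (Finset.univ.sup
        (fun v : V => (Finset.univ.filter (fun i : Fin m => v ∈ e i)).card) + 1),
      ∀ i j, i ≠ j → c i = c j → Disjoint (e i) (e j)) := by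
  intro H
  obtain ⟨c, hc⟩ := H (Fin 20) 11 E E_nonempty hyp
  exact no_col _ sup_eq c hc

end Pool.Agent.S11816
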