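import Pool.Statements.S11879
import Pool.Agent.RBE.Fin2

set_option autoImplicit false
open Pool Pool.MP_dd54b8_co

namespace Pool.Agent.S11879

/-- For every k ≥ 1 there is a constant c such that every k-connected finite graph on n vertices has an edge colouring with ⌈n/k⌉ + c colours in which any two vertices are joined by a path with all edge colours distinct. -/
theorem result :
    ∀ k : ℕ, 0 < k → ∃ c : ℕ, ∀ (V : Type) [Fintype V] (G : SimpleGraph V),
      (k < Fintype.card V ∧
        ∀ S : Finset V, S.card < k → (G.induce ((↑S : Set V)ᶜ)).Connected) →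
      ∃ f : Sym2 V → Fin (⌈(Fintype.card V : ℝ) / (k : ℝ)⌉₊ + c),
        ∀ u v : V, ∃ p : G.Walk u v, p.IsPath ∧ (p.edges.map f).Nodup := by
  exact fun k hk => Pool.RBE.bd_all k hk

end Pool.Agent.S11879
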