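import Pool.Statements.S11882
import Pool.Agent.MP_dd5568_co.Bound
import Pool.Agent.MP_dd5568_co.Asymptotics

set_option autoImplicit false
open Pool Pool.MP_dd5568_co

namespace Pool.Agent.S11882

/-- The negation of the preceding statement: There is γ>0 such that for every n, every face-to-face triangulation of the unit n-cube into n-simplices with cube vertices (hulls cover the cube, any two meet in the hull of their common vertices) has at least γ^n·n! simplices. -/
theorem result :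
    ¬ (∃ γ : ℝ, 0 < γ ∧ ∀ n : ℕ, ∀ T : Finset (Finset (Fin n → ℝ)),
      (∀ S ∈ T, S.card = n + 1 ∧
        AffineIndependent ℝ (fun x : S => (x : Fin n → ℝ)) ∧
        ∀ v ∈ S, ∀ i : Fin n, v i = 0 ∨ v i = 1) →
      (⋃ S ∈ T, convexHull ℝ (↑S : Set (Fin n → ℝ))) = Set.Icc (0 : Fin n → ℝ) 1 →
      (∀ S ∈ T, ∀ S' ∈ T,
        convexHull ℝ (↑S : Set (Fin n → ℝ)) ∩ convexHull ℝ (↑S' : Set (Fin n → ℝ)) =
          convexHull ℝ (↑(S ∩ S') : Set (Fin n → ℝ))) →
      γ ^ n * (n.factorial : ℝ) ≤ (T.card : ℝ)) := by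
  rintro ⟨γ, hγ, h⟩
  obtain ⟨n, hn⟩ := Pool.Agent.MP_dd5568_co.beats γ hγ
  obtain ⟨ω, hω, hcard⟩ := Pool.Agent.MP_dd5568_co.exists_triangulation n
  have h1 := h n (Pool.Agent.MP_dd5568_co.T ω)
    (fun S hS => Pool.Agent.MP_dd5568_co.T_cond S hS)
    (Pool.Agent.MP_dd5568_co.T_cover hω)
    (fun S hS S' hS' => Pool.Agent.MP_dd5568_co.T_inter S hS S' hS')
  have h2 : γ ^ n * (n.factorial : ℝ) * (n + 1) ≤
      ((Pool.Agent.MP_dd5568_co.T ω).card : ℝ) * (n + 1) := by
    gcongr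
  linarith

end Pool.Agent.S11882
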