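import Pool.Statements.S12138
import Pool.Agent.MP_e7a50c_co.Final

set_option autoImplicit false
open Pool Pool.MP_e7a50c_co

namespace Pool.Agent.S12138

/-- The negation of the preceding statement: There is c>0 such that for every N some iterated-K3 graph G(p_1,…,p_k) with n≥N vertices has every planar straight-line integer-grid drawing occupying a bounding box with at least c·n² grid points. -/
theorem result :
    ¬ (∃ c : ℝ, 0 < c ∧ ∀ N : ℕ, ∃ n : ℕ, N ≤ n ∧ ∃ G : SimpleGraph (Fin n), ∃ k : ℕ, 1 ≤ k ∧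
      ∃ p : ℕ → ℕ, (∀ j : ℕ, 1 ≤ j → j ≤ k → 0 < p j) ∧
      ∃ lev : Fin n → ℕ,
        (∀ v, lev v ≤ k) ∧
        {v : Fin n | lev v = 0}.ncard = 3 ∧
        (∀ u v : Fin n, lev u = 0 → lev v = 0 → u ≠ v → G.Adj u v) ∧
        (∀ u v : Fin n, G.Adj u v → lev u = lev v → lev u = 0) ∧
        (∀ x : Fin n, 1 ≤ lev x → ∃ v w : Fin n, v ≠ w ∧ G.Adj v w ∧ lev v < lev x ∧
            lev w < lev x ∧ G.Adj x v ∧ G.Adj x w ∧
            ∀ u : Fin n, G.Adj x u → lev u < lev x → u = v ∨ u = w) ∧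
        (∀ j : ℕ, 1 ≤ j → j ≤ k → ∀ v w : Fin n, G.Adj v w → lev v < j → lev w < j →
            {x : Fin n | lev x = j ∧ G.Adj x v ∧ G.Adj x w}.ncard = p j) ∧
        ∀ f : Fin n → ℝ × ℝ,
          (∀ v, ∃ a b : ℤ, f v = ((a : ℝ), (b : ℝ))) →
          Function.Injective f →
          (∀ u v w : Fin n, G.Adj u v → w ≠ u → w ≠ v → f w ∉ segment ℝ (f u) (f v)) →
          (∀ u v w x : Fin n, G.Adj u v → G.Adj w x → u ≠ w → u ≠ x → v ≠ w → v ≠ x →
            Disjoint (segment ℝ (f u) (f v)) (segment ℝ (f w) (f x))) →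
          ∀ a b W H : ℝ,
            (∀ v, a ≤ (f v).1 ∧ (f v).1 ≤ a + W ∧ b ≤ (f v).2 ∧ (f v).2 ≤ b + H) →
            c * (n : ℝ) ^ 2 ≤ (W + 1) * (H + 1)) := by
  rintro ⟨c, hc, h⟩
  obtain ⟨N, hN⟩ := Pool.Agent.Wood.area_small hc
  obtain ⟨n, hn, G, k, _, p, hp, lev, h1, h2, h3, h4, h5, h6, h7⟩ := h N
  have D : Pool.Agent.Wood.Data G k p lev := ⟨hp, h1, h2, h3, h4, h5, h6⟩
  obtain ⟨f, f1, f2, f3, f4, f5⟩ := Pool.Agent.Wood.exists_grid_drawing D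
  have h8 := h7 f f1 f2 f3 f4 0 0 (2 * (Pool.Agent.Wood.ell k p 0 : ℝ)) (2 ^ (k + 1)) f5
  have h9 := hN n hn G k p lev D
  linarith

end Pool.Agent.S12138
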