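import Pool.Statements.S12466

set_option autoImplicit false
open Pool Pool.MP_f7a12b_co

namespace Pool.Agent.S12466

/-- Vertices: the nodes of the complete `N`-ary tree of height `N * N`, coded as words
(most recent letter first). -/
abbrev Vert (N : ℕ) : Type := {l : List (Fin N) // l.length ≤ N * N}

/-- Inner nodes point to their `N` children; the leaf `c :: t` points to its `N` ancestors whose
depth lies in the `c`-th block of `N` consecutive depths. -/
def adj (N : ℕ) (u w : Vert N) : Prop :=
  (u.1.length < N * N ∧ ∃ c : Fin N, w.1 = c :: u.1) ∨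
  (u.1.length = N * N ∧ ∃ (c : Fin N) (t : List (Fin N)),
    u.1 = c :: t ∧ w.1 <:+ t ∧ w.1.length / N = c.1)

lemma finite_vert (N : ℕ) : Finite (Vert N) :=
  (List.finite_length_le (Fin N) (N * N)).to_subtype

noncomputable instance (N : ℕ) : Fintype (Vert N) :=
  haveI := finite_vert N
  Fintype.ofFinite _

instance (N : ℕ) : Nonempty (Vert N) := ⟨⟨[], by simp⟩⟩

lemma not_adj_self (N : ℕ) (v : Vert N) : ¬ adj N v v := by
  rintro (⟨_, c, h⟩ | ⟨_, c, t, h, hs, _⟩)
  · have := congrArg List.length h
    simp at this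
  · have h1 := congrArg List.length h
    have h2 := hs.length_le
    simp at h1
    omega

lemma outdeg (N : ℕ) (v : Vert N) : N ≤ {w : Vert N | adj N v w}.ncard := by
  rcases Nat.eq_zero_or_pos N with hN | hN
  · omega
  rcases Nat.lt_or_ge v.1.length (N * N) with hlt | hge
  · -- inner node
    let g : Fin N → {w : Vert N | adj N v w} := fun c =>
      ⟨⟨c :: v.1, by simpa using hlt⟩, Or.inl ⟨hlt, c, rfl⟩⟩
    have hg : Function.Injective g := by
      intro a b hab
      have := congrArg (fun z => z.1.1) hab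
      simp only [g, List.cons.injEq, and_true] at this
      exact this
    have := Nat.card_le_card_of_injective g hg
    rw [Nat.card_fin, Nat.card_coe_set_eq] at this
    exact this
  · have hlen : v.1.length = N * N := le_antisymm v.2 hge
    have hpos : 0 < N * N := Nat.mul_pos hN hN
    obtain ⟨c, t, hv⟩ : ∃ (c : Fin N) (t : List (Fin N)), v.1 = c :: t := by
      cases hvv : v.1 with
      | nil => rw [hvv] at hlen; simp at hlen; omega
      | cons c t => exact ⟨c, t, rfl⟩
    have htlen : t.length + 1 = N * N := by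
      have := congrArg List.length hv
      simp at this
      omega
    have hbound : ∀ i : Fin N, c.1 * N + i.1 ≤ t.length := by
      intro i
      have h1 : (c.1 + 1) * N ≤ N * N := Nat.mul_le_mul_right N c.2
      have h2 := i.2
      nlinarith
    have hlen' : ∀ i : Fin N, (t.drop (t.length - (c.1 * N + i.1))).length = c.1 * N + i.1 := by
      intro i
      have := hbound i
      rw [List.length_drop]
      omega
    let g : Fin N → {w : Vert N | adj N v w} := fun i =>
      ⟨⟨t.drop (t.length - (c.1 * N + i.1)), by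
          rw [hlen' i]; have := hbound i; omega⟩,
        Or.inr ⟨hlen, c, t, hv, List.drop_suffix _ _, by
          show (t.drop (t.length - (c.1 * N + i.1))).length / N = c.1
          rw [hlen' i, Nat.mul_comm, Nat.mul_add_div hN, Nat.div_eq_of_lt i.2, Nat.add_zero]⟩⟩
    have hg : Function.Injective g := by
      intro a b hab
      have h := congrArg (fun z => z.1.1.length) hab
      simp only [g] at h
      rw [hlen' a, hlen' b] at h
      exact Fin.ext (by omega)
    have := Nat.card_le_card_of_injective g hg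
    rw [Nat.card_fin, Nat.card_coe_set_eq] at this
    exact this

/-- The key step: no nonempty set `Xᶜ` with inner out-degree at least two in which every vertex
has an out-neighbour in `X`. -/
lemma key (N : ℕ) (hN : 0 < N) (X : Set (Vert N)) (hX : X ≠ Set.univ)
    (hdom : ∀ y, y ∉ X → ∃ x ∈ X, adj N y x)
    (hdeg : ∀ v, v ∉ X → 2 ≤ {w : Vert N | w ∉ X ∧ adj N v w}.ncard) : False := by
  -- a vertex outside `X` of minimal depth
  obtain ⟨y, hyX, hymin⟩ : ∃ y : Vert N, y ∉ X ∧ ∀ z : Vert N, z ∉ X → y.1.length ≤ z.1.length := by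
    have hne : (Xᶜ).Nonempty := by
      rwa [Set.nonempty_compl]
    have hfin : (Xᶜ : Set (Vert N)).Finite := Set.toFinite _
    obtain ⟨y, hy, hmin⟩ := Set.exists_min_image Xᶜ (fun z : Vert N => z.1.length) hfin hne
    exact ⟨y, hy, hmin⟩
  have hpos : 0 < N * N := Nat.mul_pos hN hN
  -- two different out-neighbours outside `X`
  have htwo : ∀ v, v ∉ X → ∃ a b : Vert N, a ≠ b ∧ (a ∉ X ∧ adj N v a) ∧ (b ∉ X ∧ adj N v b) := by
    intro v hv
    have h := hdeg v hv
    have h1 : 1 < {w : Vert N | w ∉ X ∧ adj N v w}.ncard := h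
    rw [Set.one_lt_ncard (Set.toFinite _)] at h1
    obtain ⟨a, ha, b, hb, hab⟩ := h1
    exact ⟨a, b, hab, ha, hb⟩
  -- `y` is not a leaf
  have hylt : y.1.length < N * N := by
    rcases Nat.lt_or_ge y.1.length (N * N) with h | h
    · exact h
    · exfalso
      obtain ⟨a, b, -, ⟨haX, ha⟩, -⟩ := htwo y hyX
      rcases ha with ⟨h', _⟩ | ⟨_, c, t, h1, h2, _⟩
      · omega
      · have := hymin a haX
        have h3 := congrArg List.length h1
        have h4 := h2.length_le
        simp at h3
        omega
  -- the descending path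
  have hpath : ∀ m : ℕ, y.1.length + m < N * N → ∃ p : Vert N, p ∉ X ∧
      p.1.length = y.1.length + m ∧
      ∀ q : Vert N, q.1 <:+ p.1 → y.1.length ≤ q.1.length → q ∉ X := by
    intro m
    induction m with
    | zero =>
      intro _
      refine ⟨y, hyX, rfl, ?_⟩
      intro q hq hle
      have : q.1 = y.1 := hq.eq_of_length (le_antisymm hq.length_le hle)
      rw [Subtype.ext this]
      exact hyX
    | succ m ih =>
      intro hm
      obtain ⟨p, hpX, hpl, hpq⟩ := ih (by omega)
      obtain ⟨a, b, -, ⟨haX, ha⟩, -⟩ := htwo p hpX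
      rcases ha with ⟨_, c, hc⟩ | ⟨h', _⟩
      · refine ⟨a, haX, by rw [hc]; simp; omega, ?_⟩
        intro q hq hle
        rw [hc, List.suffix_cons_iff] at hq
        rcases hq with hq | hq
        · have : q = a := Subtype.ext (by rw [hq, hc])
          rw [this]; exact haX
        · exact hpq q hq hle
      · omega
  obtain ⟨p, hpX, hpl, hpq⟩ := hpath (N * N - 1 - y.1.length) (by omega)
  have hpl' : p.1.length = N * N - 1 := by omega
  have hplt : p.1.length < N * N := by omega
  obtain ⟨a, b, hab, ⟨haX, ha⟩, ⟨hbX, hb⟩⟩ := htwo p hpX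
  -- a leaf child whose block avoids the depth of `y`
  obtain ⟨l, hlX, c, hlc, hne⟩ : ∃ l : Vert N, l ∉ X ∧ ∃ c : Fin N, l.1 = c :: p.1 ∧
      c.1 ≠ y.1.length / N := by
    rcases ha with ⟨_, ca, hca⟩ | ⟨h', _⟩
    swap
    · omega
    rcases hb with ⟨_, cb, hcb⟩ | ⟨h', _⟩
    swap
    · omega
    by_cases hca' : ca.1 = y.1.length / N
    · refine ⟨b, hbX, cb, hcb, ?_⟩
      intro hcb'
      apply hab
      apply Subtype.ext
      rw [hca, hcb]
      have : ca = cb := Fin.ext (by omega)
      rw [this]
    · exact ⟨a, haX, ca, hca, hca'⟩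
  have hllen : l.1.length = N * N := by rw [hlc]; simp; omega
  rcases Nat.lt_or_gt_of_ne hne with hlt | hgt
  · -- block above `y` : no out-neighbour outside `X`
    obtain ⟨w, _, -, ⟨hwX, hw⟩, -⟩ := htwo l hlX
    rcases hw with ⟨h', _⟩ | ⟨_, c', t, h1, h2, h3⟩
    · omega
    · rw [hlc, List.cons.injEq] at h1
      obtain ⟨h1a, h1b⟩ := h1
      have h4 := hymin w hwX
      have h5 : y.1.length / N ≤ w.1.length / N := Nat.div_le_div_right h4
      rw [h3, ← h1a] at h5
      omega
  · -- block below `y` : all out-neighbours outside `X`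
    obtain ⟨w, hwX, hw⟩ := hdom l hlX
    rcases hw with ⟨h', _⟩ | ⟨_, c', t, h1, h2, h3⟩
    · omega
    · rw [hlc, List.cons.injEq] at h1
      obtain ⟨h1a, h1b⟩ := h1
      refine hpq w (h1b ▸ h2) ?_ hwX
      by_contra hlt'
      have h5 : w.1.length / N ≤ y.1.length / N := Nat.div_le_div_right (by omega)
      rw [h3, ← h1a] at h5
      omega

/-- The negation of the preceding statement: There is f such that for every k ≥ 1, every finite nonempty loopless digraph with minimum out-degree ≥ f(k) has a proper vertex subset X, with every vertex outside X having an out-neighbour in X, such that the digraph with X deleted has minimum out-degree ≥ k. -/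
theorem result :
    ¬ (∃ f : ℕ → ℕ, ∀ k : ℕ, 1 ≤ k →
      ∀ (V : Type) [Fintype V] [Nonempty V] (D : Digraph V),
        (∀ v, ¬ D.Adj v v) →
        (∀ v, f k ≤ {w : V | D.Adj v w}.ncard) →
        ∃ X : Set V, X ≠ Set.univ ∧
          (∀ y, y ∉ X → ∃ x ∈ X, D.Adj y x) ∧
          (∀ v, v ∉ X → k ≤ {w : V | w ∉ X ∧ D.Adj v w}.ncard)) := by
  rintro ⟨f, hf⟩
  obtain ⟨X, hX, hdom, hdeg⟩ := hf 2 (by norm_num) (Vert (f 2 + 1)) ⟨adj (f 2 + 1)⟩
    (fun v => not_adj_self _ v) (fun v => le_trans (Nat.le_succ _) (outdeg (f 2 + 1) v))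
  exact key (f 2 + 1) (Nat.succ_pos _) X hX hdom hdeg

end Pool.Agent.S12466
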