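import Pool.Statements.S13283
import Pool.Agent.MP_645085_gt.TOR.Main

set_option autoImplicit false
open Pool Pool.MP_645085_gt

namespace Pool.Agent.S13283

/-- Every complete metrizable real topological vector space that is an absolute extensor for metrizable spaces (equivalently an absolute retract) is homeomorphic to some real Hilbert space. -/
theorem result :
    ∀ (E : Type) [AddCommGroup E] [Module ℝ E] [UniformSpace E] [IsUniformAddGroup E]
      [ContinuousSMul ℝ E] [TopologicalSpace.MetrizableSpace E] [CompleteSpace E],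
      (∀ (Y : Type) [TopologicalSpace Y] [TopologicalSpace.MetrizableSpace Y] (A : Set Y),
          IsClosed A → ∀ f : A → E, Continuous f →
            ∃ g : Y → E, Continuous g ∧ ∀ a : A, g a = f a) →
      ∃ (H : Type) (_ : NormedAddCommGroup H) (_ : InnerProductSpace ℝ H),
        CompleteSpace H ∧ Nonempty (E ≃ₜ H) := by
  intro E _ _ _ _ _ _ _ hE
  obtain ⟨X, i1, i2, i3, i4, ⟨e⟩⟩ := Pool.Agent.MP_645085_gt.TOR.exists_fn E
  have hX : Pool.Agent.MP_645085_gt.TOR.AE X :=
    Pool.Agent.MP_645085_gt.TOR.AE.homeo (E := E) hE e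
  obtain ⟨H, j1, j2, j3, ⟨e'⟩⟩ := Pool.Agent.MP_645085_gt.TOR.main X hX
  exact ⟨H, j1, j2, j3, ⟨e.trans e'⟩⟩

end Pool.Agent.S13283
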