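import Pool.Statements.S13553
import Pool.Agent.MP_8db1a4_gt.Final

set_option autoImplicit false
open scoped ENNReal Topology
open Pool Pool.MP_8db1a4_gt

namespace Pool.Agent.S13553

/-- For a discrete, torsion-free, finitely generated group of hyperbolic isometries of the n-ball with no ℤ² subgroup, every degree with nonzero integral group cohomology is at most the Hausdorff dimension of the conical limit set plus one. -/
theorem result :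
  ∀ (n : ℕ), 2 ≤ n →
  ∀ G : Subgroup (Equiv.Perm ↥(Metric.ball (0 : EuclideanSpace ℝ (Fin n)) 1)),
  (∀ g ∈ G, ∀ x y : ↥(Metric.ball (0 : EuclideanSpace ℝ (Fin n)) 1),
      ‖((g x : EuclideanSpace ℝ (Fin n)) - (g y : EuclideanSpace ℝ (Fin n)))‖ ^ 2 *
        ((1 - ‖(x : EuclideanSpace ℝ (Fin n))‖ ^ 2) * (1 - ‖(y : EuclideanSpace ℝ (Fin n))‖ ^ 2))
      = ‖((x : EuclideanSpace ℝ (Fin n)) - (y : EuclideanSpace ℝ (Fin n)))‖ ^ 2 *
        ((1 - ‖(g x : EuclideanSpace ℝ (Fin n))‖ ^ 2) * (1 - ‖(g y : EuclideanSpace ℝ (Fin n))‖ ^ 2))) →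
  (∀ r : ℝ, r < 1 →
      {g : ↥G | ‖(((g : Equiv.Perm ↥(Metric.ball (0 : EuclideanSpace ℝ (Fin n)) 1))
          ⟨0, Metric.mem_ball_self zero_lt_one⟩ : EuclideanSpace ℝ (Fin n)))‖ ≤ r}.Finite) →
  (∀ g : ↥G, ∀ k : ℕ, 0 < k → g ^ k = 1 → g = 1) →
  Group.FG ↥G →
  (∀ f : Multiplicative (ℤ × ℤ) →* ↥G, ¬ Function.Injective f) →
  ∀ m : ℕ, ∀ M : Rep ℤ ↥G, Nontrivial (groupCohomology M m) →
    ((m : ℝ≥0∞)) ≤ dimH {ξ : EuclideanSpace ℝ (Fin n) | ‖ξ‖ = 1 ∧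
        ∃ C : ℝ, ∃ u : ℕ → ↥G, ∃ t : ℕ → ℝ,
          (∀ k, 0 ≤ t k ∧ t k < 1) ∧ Filter.Tendsto t Filter.atTop (𝓝 1) ∧
          ∀ k, ‖((((u k : ↥G) : Equiv.Perm ↥(Metric.ball (0 : EuclideanSpace ℝ (Fin n)) 1))
                  ⟨0, Metric.mem_ball_self zero_lt_one⟩ : EuclideanSpace ℝ (Fin n)) - t k • ξ)‖ ^ 2
              ≤ C * ((1 - ‖((((u k : ↥G) : Equiv.Perm ↥(Metric.ball (0 : EuclideanSpace ℝ (Fin n)) 1))
                  ⟨0, Metric.mem_ball_self zero_lt_one⟩ : EuclideanSpace ℝ (Fin n)))‖ ^ 2) * (1 - t k ^ 2))} + 1 := by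
  intro n hn G hG hd htf _ hZ m M hM
  obtain ⟨ρ, h, hdis, hsub⟩ := Pool.Agent.MP_8db1a4_gt.exists_lorAction n hn G hG hd
  refine le_trans ?_ (add_le_add_left (dimH_mono hsub) 1)
  by_contra hcon
  push Not at hcon
  rcases Nat.lt_or_ge m 2 with hm | hm
  · have h1 : (m : ℝ≥0∞) ≤ 1 := by
      exact_mod_cast (by omega : m ≤ 1)
    exact absurd (h1.trans (le_add_of_nonneg_left zero_le)) (not_le.mpr hcon)
  · refine Pool.Agent.MP_8db1a4_gt.vanishing_of_dimH ρ h hdis htf hZ m hm ?_ M hM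
    have h2 : (2 : ℝ) ≤ m := by exact_mod_cast hm
    have h3 : (m : ℝ≥0∞) = ENNReal.ofReal ((m : ℝ) - 1) + 1 := by
      rw [← ENNReal.ofReal_one, ← ENNReal.ofReal_add (by linarith) zero_le_one]
      simp
    rw [h3] at hcon
    exact lt_of_add_lt_add_right hcon

end Pool.Agent.S13553
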