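import Pool.Statements.S13906
import Pool.Agent.MP_c51823_gt.QB.Final

set_option autoImplicit false
open Topology
open Pool Pool.MP_c51823_gt

namespace Pool.Agent.S13906

/-- The negation of the preceding statement: Every complete, Hausdorff, metrizable, locally bounded real topological vector space (a quasi-Banach space) is homeomorphic to some real Hilbert space. -/
theorem result :
    ¬ (∀ (E : Type) [AddCommGroup E] [Module ℝ E] [UniformSpace E] [IsUniformAddGroup E]
      [ContinuousSMul ℝ E] [T2Space E] [CompleteSpace E] [TopologicalSpace.MetrizableSpace E],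
      (∃ U ∈ 𝓝 (0 : E), Bornology.IsVonNBounded ℝ U) →
      ∃ (H : Type) (_ : NormedAddCommGroup H) (_ : InnerProductSpace ℝ H),
        CompleteSpace H ∧ Nonempty (E ≃ₜ H)) :=
  Pool.QB.not_Frozen

end Pool.Agent.S13906
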