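import Pool.Statements.S13932
import Pool.Agent.MP_c7fc41_gt.Main

set_option autoImplicit false
open Pointwise
open Pool Pool.MP_c7fc41_gt

namespace Pool.Agent.S13932

/-- The negation of the preceding statement: Take n ≥ 3 and a convex body K in n-space. If its Blaschke body (the symmetric body whose surface area measure is the average of those of K and −K) is homothetic to ½(K−K), then K is centrally symmetric. -/
theorem result :
    ¬ (∀ n : ℕ, 3 ≤ n → ∀ K B : Set (EuclideanSpace ℝ (Fin n)),
      IsCompact K → Convex ℝ K → (interior K).Nonempty →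
      IsCompact B → Convex ℝ B → (interior B).Nonempty → -B = B →
      (∀ L : Set (EuclideanSpace ℝ (Fin n)), IsCompact L → Convex ℝ L → L.Nonempty →
        HasDerivWithinAt
          (fun ε : ℝ => (MeasureTheory.volume (B + ε • L)).toReal
            - ((MeasureTheory.volume (K + ε • L)).toReal
                + (MeasureTheory.volume (-K + ε • L)).toReal) / 2)
          0 (Set.Ici 0) 0) →
      (∃ r : ℝ, 0 < r ∧ ∃ x : EuclideanSpace ℝ (Fin n),
        B = x +ᵥ (r • ((1 / 2 : ℝ) • (K + -K)))) →
      ∃ c : EuclideanSpace ℝ (Fin n), ∀ y : EuclideanSpace ℝ (Fin n),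
        y ∈ K ↔ (2 : ℝ) • c - y ∈ K) := by
  exact Pool.Agent.MP_c7fc41_gt.main

end Pool.Agent.S13932
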