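import Pool.Statements.S14438
import Pool.Agent.MP_1b0fb5_lc.Final

set_option autoImplicit false
open Classical
open Pool Pool.MP_1b0fb5_lc

namespace Pool.Agent.S14438

/-- The negation of the preceding statement: For any finitely many Martin-Löf random reals a_i and b_j, with no a_i Turing equivalent to any b_j, there is a Martin-Löf random c whose degree is at density-Hausdorff distance 1/2 from each a_i's degree and 1 from each b_j's degree. -/
theorem result :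
    ¬ (∀ (R : (ℕ → Bool) → Prop) (E : (ℕ → Bool) → (ℕ → Bool) → Prop)
    (δ H : (ℕ → Bool) → (ℕ → Bool) → ℝ),
    (∀ X : ℕ → Bool, R X ↔ ¬ ∃ f : ℕ → ℕ → Option (List Bool), Computable₂ f ∧
      (∀ n M L : ℕ,
        ((Finset.univ : Finset (Fin L → Bool)).filter (fun τ =>
          ∃ j < M, ∃ σ : List Bool, f n j = some σ ∧ σ.length ≤ L ∧
            ∀ i : Fin L, (i : ℕ) < σ.length → σ.getD i false = τ i)).card * 2 ^ n ≤ 2 ^ L) ∧
      ∀ n : ℕ, ∃ j : ℕ, ∃ σ : List Bool, f n j = some σ ∧ σ = (List.range σ.length).map X) →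
    (∀ X Y : ℕ → Bool, E X Y ↔
      (TuringReducible (fun n => Part.some (X n).toNat) (fun n => Part.some (Y n).toNat) ∧
       TuringReducible (fun n => Part.some (Y n).toNat) (fun n => Part.some (X n).toNat))) →
    (∀ X Y : ℕ → Bool, δ X Y = Filter.limsup
      (fun n : ℕ => (((Finset.range n).filter (fun i => X i ≠ Y i)).card : ℝ) / (n : ℝ))
      Filter.atTop) →
    (∀ X Y : ℕ → Bool, H X Y = max
      (sSup {r : ℝ | ∃ X' : ℕ → Bool, E X' X ∧ r = sInf {s : ℝ | ∃ Y' : ℕ → Bool, E Y' Y ∧ s = δ X' Y'}})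
      (sSup {r : ℝ | ∃ Y' : ℕ → Bool, E Y' Y ∧ r = sInf {s : ℝ | ∃ X' : ℕ → Bool, E X' X ∧ s = δ X' Y'}})) →
    ∀ (m k : ℕ) (a : Fin m → ℕ → Bool) (b : Fin k → ℕ → Bool),
      (∀ i, R (a i)) → (∀ j, R (b j)) → (∀ i j, ¬ E (a i) (b j)) →
      ∃ c : ℕ → Bool, R c ∧ (∀ i, H (a i) c = 1 / 2) ∧ (∀ j, H (b j) c = 1)) := by
  intro h
  obtain ⟨b, hb1, hb2, hb3, hb4⟩ := Pool.Agent.MP_1b0fb5_lc.exists_b
  have main := h
    (fun X => ¬ ∃ f : ℕ → ℕ → Option (List Bool), Computable₂ f ∧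
      (∀ n M L : ℕ,
        ((Finset.univ : Finset (Fin L → Bool)).filter (fun τ =>
          ∃ j < M, ∃ σ : List Bool, f n j = some σ ∧ σ.length ≤ L ∧
            ∀ i : Fin L, (i : ℕ) < σ.length → σ.getD i false = τ i)).card * 2 ^ n ≤ 2 ^ L) ∧
      ∀ n : ℕ, ∃ j : ℕ, ∃ σ : List Bool, f n j = some σ ∧ σ = (List.range σ.length).map X)
    (fun X Y => (TuringReducible (fun n => Part.some (X n).toNat) (fun n => Part.some (Y n).toNat) ∧
       TuringReducible (fun n => Part.some (Y n).toNat) (fun n => Part.some (X n).toNat)))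
    Pool.Agent.MP_1b0fb5_lc.dlt _
    (fun X => Iff.rfl) (fun X Y => Iff.rfl) (fun X Y => rfl) (fun X Y => rfl)
    1 1 (fun _ => Pool.Agent.MP_1b0fb5_lc.evn b) (fun _ => b)
  have e1 : ∀ X Y : ℕ → Bool,
      (TuringReducible (fun n => Part.some (X n).toNat) (fun n => Part.some (Y n).toNat) ∧
       TuringReducible (fun n => Part.some (Y n).toNat) (fun n => Part.some (X n).toNat)) ↔
      (Pool.Agent.MP_1b0fb5_lc.red X Y ∧ Pool.Agent.MP_1b0fb5_lc.red Y X) := fun X Y =>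
    and_congr (Pool.Agent.MP_1b0fb5_lc.red_iff X Y) (Pool.Agent.MP_1b0fb5_lc.red_iff Y X)
  simp only [e1] at main
  obtain ⟨c, -, hc1, hc2⟩ := main (by
      rintro - ⟨f, hf1, hf2, hf3⟩
      obtain ⟨n, hn⟩ := hb4 f ⟨hf1, hf2⟩
      exact hn (hf3 n)) (by
      rintro - ⟨f, hf1, hf2, hf3⟩
      obtain ⟨n, hn⟩ := hb3 f ⟨hf1, hf2⟩
      exact hn (hf3 n)) (by
      rintro - - ⟨-, hred⟩
      obtain ⟨F, hF, hev⟩ := Pool.Agent.MP_1b0fb5_lc.use_principle _ hred
      obtain ⟨n, hn⟩ := hb2 F hF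
      apply hn
      rw [← hev]
      exact Part.mem_some _)
  have h1 := hc1 0
  have h2 := hc2 0
  exact Pool.Agent.MP_1b0fb5_lc.final_contra hb1 h1 h2

end Pool.Agent.S14438
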