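import Pool.Statements.S16899
import Pool.Agent.MP_4eca2d_nt.Main

set_option autoImplicit false
open Pool Pool.MP_4eca2d_nt

namespace Pool.Agent.S16899

/-- There is a function ω(n)=o(log n) such that for every n≥1 and positive integer speeds v_1..v_n with v_{i+1} ≥ (1+ω(n)/n)v_i, some real time t puts every t·v_i at distance at least 1/(n+1) from the nearest integer. -/
theorem result :
    ∃ ω : ℕ → ℝ, Asymptotics.IsLittleO Filter.atTop ω (fun n : ℕ => Real.log (n : ℝ)) ∧
      ∀ n : ℕ, 1 ≤ n → ∀ v : Fin n → ℕ, (∀ i, 0 < v i) →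
        (∀ i j : Fin n, j.val = i.val + 1 →
            (1 + ω n / (n : ℝ)) * (v i : ℝ) ≤ (v j : ℝ)) →
        ∃ t : ℝ, ∀ i : Fin n,
          1 / ((n : ℝ) + 1) ≤ |t * (v i : ℝ) - (round (t * (v i : ℝ)) : ℝ)| := by
  exact LRL.main

end Pool.Agent.S16899
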