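import Pool.Statements.S19157
import Pool.Agent.MP_10effd_pr.LL.Main

set_option autoImplicit false
open Pool Pool.MP_10effd_pr

namespace Pool.Agent.S19157

/-- For each 0<ε<1 and degree bound Δ there is C such that on every connected graph with n≥2 vertices and max degree ≤Δ, from any start, some ε-biased control strategy gives expected cover time at most C·n. -/
theorem result :
  ∀ ε : ℝ, 0 < ε → ε < 1 → ∀ Δ : ℕ, ∃ C : ℝ, 0 < C ∧
    ∀ (V : Type) [Fintype V] [DecidableEq V] (G : SimpleGraph V) [DecidableRel G.Adj],
      2 ≤ Fintype.card V → G.Connected → (∀ v : V, G.degree v ≤ Δ) →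
      ∀ v₀ : V, ∃ f : V → Finset V → V, (∀ (u : V) (S : Finset V), G.Adj u (f u S)) ∧
        (∑' t : ℕ, ∑ p : V × Finset V,
          (if p.2 = Finset.univ then (0 : ENNReal) else
            (Nat.rec (motive := fun _ => V × Finset V → ENNReal)
              (fun q : V × Finset V => if q = (v₀, ({v₀} : Finset V)) then (1 : ENNReal) else 0)
              (fun (_ : ℕ) (μ : V × Finset V → ENNReal) (q : V × Finset V) =>
                ∑ r : V × Finset V, μ r *
                  (if G.Adj r.1 q.1 ∧ q.2 = insert q.1 r.2 then
                    ENNReal.ofReal ((1 - ε) / (G.degree r.1 : ℝ) +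
                      (if q.1 = f r.1 r.2 then ε else 0))
                  else 0))
              t) p))
          ≤ ENNReal.ofReal (C * (Fintype.card V : ℝ)) := by
  intro ε h0 h1 Δ
  obtain ⟨C, hC, h⟩ := Pool.MP_10effd_pr.val_linear h0 h1 Δ
  refine ⟨C, hC, ?_⟩
  intro V _ _ G _ hn hG hdeg v₀
  have hnt : Nontrivial V := Fintype.one_lt_card_iff_nontrivial.mp (by omega)
  have hd : ∀ x, 0 < G.degree x := fun x => hG.preconnected.degree_pos_of_nontrivial x
  exact Pool.MP_10effd_pr.exists_policy h0 h1 hd (fun m v => h V G hG hd hdeg m v) v₀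

end Pool.Agent.S19157
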