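import Pool.Statements.S19297
import Pool.Agent.BTR.FD

set_option autoImplicit false
open scoped Classical
open Pool Pool.MP_4a8bc2_pr

namespace Pool.Agent.S19297

/-- For all d ≥ r ≥ 2 there are λ>0 and 0<c≤C with, for all large n, the r-neighbour bootstrap critical probability on [n]^d between (λ/L − C/L^{3/2})^{d−r+1} and (λ/L − c/L^{3/2})^{d−r+1}, L the (r−1)-fold iterated log of n. -/
theorem result :
  ∀ d r : ℕ, 2 ≤ r → r ≤ d →
    ∃ lam c C : ℝ, 0 < lam ∧ 0 < c ∧ c ≤ C ∧ ∃ N : ℕ, ∀ n : ℕ, N ≤ n →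
      (lam / Real.log^[r-1] (n:ℝ) - C / (Real.log^[r-1] (n:ℝ)) ^ ((3:ℝ)/2)) ^ (d - r + 1)
        ≤ sInf {p : ℝ | 0 ≤ p ∧ p ≤ 1 ∧ (1:ℝ)/2 ≤ ∑ A : Finset (Fin d → Fin n),
            (if (∀ S : Finset (Fin d → Fin n), A ⊆ S →
                (∀ v : Fin d → Fin n,
                  r ≤ (Finset.univ.filter (fun u : Fin d → Fin n =>
                    u ∈ S ∧ ∑ i, |((u i : ℕ) : ℤ) - ((v i : ℕ) : ℤ)| = 1)).card → v ∈ S) →
                S = Finset.univ)
            then p ^ A.card * (1 - p) ^ (Fintype.card (Fin d → Fin n) - A.card) else 0)}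
      ∧ sInf {p : ℝ | 0 ≤ p ∧ p ≤ 1 ∧ (1:ℝ)/2 ≤ ∑ A : Finset (Fin d → Fin n),
            (if (∀ S : Finset (Fin d → Fin n), A ⊆ S →
                (∀ v : Fin d → Fin n,
                  r ≤ (Finset.univ.filter (fun u : Fin d → Fin n =>
                    u ∈ S ∧ ∑ i, |((u i : ℕ) : ℤ) - ((v i : ℕ) : ℤ)| = 1)).card → v ∈ S) →
                S = Finset.univ)
            then p ^ A.card * (1 - p) ^ (Fintype.card (Fin d → Fin n) - A.card) else 0)}
        ≤ (lam / Real.log^[r-1] (n:ℝ) - c / (Real.log^[r-1] (n:ℝ)) ^ ((3:ℝ)/2)) ^ (d - r + 1) :=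
  BTR.F.main_of_FIN BTR.F.FIN_of_world0

end Pool.Agent.S19297
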